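import Pool.Agent.Q24.SG.Bad

/-!
# Bad vertices in small clusters
-/

set_option autoImplicit false

namespace Pool.Agent.Q24.SG

open Pool.Agent.W907.SG Pool.Agent.W907.SM Pool.Agent.TH652.Above

theorem AR_sub {n : ℕ} {V : Type} (G : SimpleGraph V) {A B : Set V} (hAB : A ⊆ B) (h : AR n (G.induce A)) :
    AR n ((G.induce B).induce {x | x.1 ∈ A}) := by
  refine AR.iso _ _ ⟨?_⟩ h
  exact
    { toFun := fun x => ⟨⟨x.1, hAB x.2⟩, x.2⟩
      invFun := fun y => ⟨y.1.1, y.2⟩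
      left_inv := fun x => rfl
      right_inv := fun y => rfl
      map_rel_iff' := Iff.rfl }

/-- the set `B` is the union of pairwise not adjacent clusters with few vertices -/
theorem AR_clusters {m : ℕ} {V ι : Type} [Finite V] (G : SimpleGraph V) (c : V → ι) :
    ∀ (N : ℕ) (B : Set V), B.ncard = N → (∀ a ∈ B, ∀ b ∈ B, G.Adj a b → c a = c b) →
      (∀ j, CR G {v | v ∈ B ∧ c v = j} (m + 2)) → AR (2 * m + 2) (G.induce B) := by
  classical
  intro N
  induction N using Nat.strong_induction_on with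
  | _ N ih =>
    intro B hN hadj hcl
    rcases Set.eq_empty_or_nonempty B with rfl | ⟨v, hv⟩
    · exact AR_empty m G
    have h1 : AR (2 * m + 2) (G.induce {u | u ∈ B ∧ c u = c v}) := AR_fewOn (m := m + 1) (hcl (c v))
    have h2 : AR (2 * m + 2) (G.induce {u | u ∈ B ∧ c u ≠ c v}) := by
      have hlt : ({u | u ∈ B ∧ c u ≠ c v} : Set V).ncard < N := by
        rw [← hN]
        refine Set.ncard_lt_ncard ⟨fun u hu => hu.1, fun h => ?_⟩ (Set.toFinite _)
        exact (h hv).2 rfl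
      refine ih _ hlt _ rfl (fun a ha b hb hab => hadj a ha.1 b hb.1 hab) (fun j => ?_)
      refine (hcl j).mono ?_
      rintro x ⟨h3, h4⟩
      exact ⟨h3.1, h4⟩
    refine AR.glue (G.induce B) {x | x.1 ∈ {u | u ∈ B ∧ c u = c v}} {x | x.1 ∈ {u | u ∈ B ∧ c u ≠ c v}} ?_ ?_
      (AR_sub G (fun u hu => hu.1) h1) (AR_sub G (fun u hu => hu.1) h2) ?_
    · ext x
      simp only [Set.mem_union, Set.mem_univ, iff_true]
      by_cases hx : c x.1 = c v
      · exact Or.inl ⟨x.2, hx⟩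
      · exact Or.inr ⟨x.2, hx⟩
    · rintro a ha _ b hb _ hab
      exact hb.2 ((hadj a.1 a.2 b.1 b.2 hab).symm.trans ha.2)
    · have he : ({x | x.1 ∈ {u | u ∈ B ∧ c u = c v}} ∩ {x | x.1 ∈ {u | u ∈ B ∧ c u ≠ c v}} : Set ↥B) = ∅ := by
        ext x
        simp only [Set.mem_inter_iff, Set.mem_empty_iff_false, iff_false]
        rintro ⟨h3, h4⟩
        exact h4.2 h3.2
      rw [he]
      exact AR.few _ fun T _ hT => by
        have : Nat.card (↥(∅ : Set ↥B)) = 0 := by simp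
        omega

/-- **The class from bad vertices in small clusters.** -/
theorem AR_loc_clusters {m : ℕ} {V ι : Type} [Finite V] (G : SimpleGraph V) (B : Set V) (c : V → ι)
    (hadj : ∀ a ∈ B, ∀ b ∈ B, G.Adj a b → c a = c b)
    (hcl : ∀ j, ∀ T : Finset V, G.IsClique (T : Set V) → (∀ t ∈ T, t ∈ B ∧ c t = j) → T.card = m + 2 →
      {v | v ∈ B ∧ c v = j}.ncard < 3 * (m + 2) + {u | (u ∈ B ∧ c u = j) ∧ ∀ t ∈ T, G.Adj t u}.ncard)
    (hl : ∀ v, v ∉ B → AR (2 * m + 1) (G.induce (G.neighborSet v))) : AR (2 * m + 2) G :=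
  AR.loc G B (AR_clusters G c _ B rfl hadj fun j T hT hTA hr => hcl j T hT (fun _ ht => hTA ht) hr) hl

end Pool.Agent.Q24.SG
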