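import Pool.Agent.Q24.SG.Class

/-!
# Conditions on the links of the simplices with `r` vertices
-/

set_option autoImplicit false

namespace Pool.Agent.Q24.SG

open Pool.Agent.W907.SG Pool.Agent.W907.SM Pool.Agent.TH652.Above

theorem AR_empty (m : ℕ) {V : Type} (G : SimpleGraph V) : AR (2 * m + 2) (G.induce (∅ : Set V)) := by
  have h : AR (2 * (m + 1)) (G.induce (∅ : Set V)) := by
    refine AR.few _ fun T _ hT => ?_
    have : Nat.card (↥(∅ : Set V)) = 0 := by simp
    omega
  exact h

/-- all vertex links -/
theorem AR_links {m : ℕ} {V : Type} [Finite V] (G : SimpleGraph V)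
    (h : ∀ v, AR (2 * m + 1) (G.induce (G.neighborSet v))) : AR (2 * m + 2) G :=
  AR.loc G ∅ (AR_empty m G) fun v _ => h v

theorem AR_cast {a b : ℕ} (hab : a = b) {V : Type} {G : SimpleGraph V} (h : AR a G) : AR b G := hab ▸ h

theorem AR_codim (n : ℕ) : ∀ (r : ℕ) (V : Type) [Finite V] (G : SimpleGraph V),
    (∀ S : Finset V, G.IsClique (S : Set V) → S.card = r → AR n (G.induce {u | ∀ s ∈ S, G.Adj s u})) →
    AR (n + 2 * r) G := by
  classical
  intro r
  induction r with
  | zero =>
    intro V _ G h
    have h1 := h ∅ (by simp) (by simp)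
    refine AR.iso _ _ ⟨?_⟩ h1
    have e : {u : V | ∀ s ∈ (∅ : Finset V), G.Adj s u} = Set.univ := by
      ext u; simp
    rw [e]
    exact SimpleGraph.induceUnivIso G
  | succ r ih =>
    intro V _ G h
    have h1 : ∀ v, AR (n + 2 * r) (G.induce (G.neighborSet v)) := by
      intro v
      refine ih _ _ fun S hS hr => ?_
      have hvS : v ∉ S.map ⟨Subtype.val, Subtype.val_injective⟩ := by
        rw [Finset.mem_map]
        rintro ⟨x, _, hx⟩
        have : G.Adj v x.1 := x.2
        have hx' : x.1 = v := hx
        rw [hx'] at this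
        exact G.loopless.irrefl _ this
      have h2 := h (insert v (S.map ⟨Subtype.val, Subtype.val_injective⟩)) (by
        rw [Finset.coe_insert]
        refine SimpleGraph.IsClique.insert ?_ ?_
        · intro a ha b hb hab
          rw [Finset.mem_coe, Finset.mem_map] at ha hb
          obtain ⟨x, hx, rfl⟩ := ha
          obtain ⟨y, hy, rfl⟩ := hb
          exact hS hx hy fun e => hab (by rw [e])
        · intro b hb _
          rw [Finset.mem_coe, Finset.mem_map] at hb
          obtain ⟨y, hy, rfl⟩ := hb
          exact y.2) (by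
        rw [Finset.card_insert_of_notMem hvS, Finset.card_map, hr])
      refine AR.iso _ _ ⟨?_⟩ h2
      refine
        { toFun := fun x => ⟨⟨x.1, x.2 v (Finset.mem_insert_self _ _)⟩, fun s hs =>
            x.2 s.1 (Finset.mem_insert_of_mem (Finset.mem_map.2 ⟨s, hs, rfl⟩))⟩
          invFun := fun y => ⟨y.1.1, ?_⟩
          left_inv := fun x => rfl
          right_inv := fun y => rfl
          map_rel_iff' := Iff.rfl }
      intro s hs
      rw [Finset.mem_insert] at hs
      rcases hs with rfl | hs
      · exact y.1.2
      · rw [Finset.mem_map] at hs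
        obtain ⟨x, hx, rfl⟩ := hs
        exact y.2 x hx
    rcases Nat.even_or_odd' n with ⟨m, hm | hm⟩
    · have h2 : AR (2 * (m + r) + 2) G := AR_links G fun v =>
        AR_cast (by omega) (AR.succ _ (h1 v))
      exact AR_cast (by omega) h2
    · have h2 : AR (2 * (m + r) + 2) G := AR_links G fun v => AR_cast (by omega) (h1 v)
      exact AR_cast (by omega) (AR.succ _ h2)

end Pool.Agent.Q24.SG
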