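import Pool.Agent.TH652.Dual7

/-!
# Vanishing of the `ℓ²`-homology of right-angled Coxeter groups by counting vertices
-/

set_option autoImplicit false

namespace Pool.Agent.Q24.SG

open Pool.Agent.W907.SG Pool.Agent.W907.SM Pool.Agent.TH652.Above

/-- every clique `T ⊆ A` with `r` elements satisfies `|A| < 3 r + |common neighbours of T in A|` -/
def CR {V : Type} (G : SimpleGraph V) (A : Set V) (r : ℕ) : Prop :=
  ∀ T : Finset V, G.IsClique (T : Set V) → (T : Set V) ⊆ A → T.card = r →
    A.ncard < 3 * r + {u : V | u ∈ A ∧ ∀ t ∈ T, G.Adj t u}.ncard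

theorem lv_clique {V : Type} [Finite V] (G : SimpleGraph V) (i : ℕ) (hi : 1 ≤ i) :
    ∀ (N : ℕ) (A : Set V), A.ncard = N → (∀ a ∈ A, ∀ b ∈ A, a ≠ b → G.Adj a b) → LV (G.induce A) i := by
  intro N
  induction N with
  | zero =>
    intro A hA _
    rw [Set.ncard_eq_zero] at hA
    subst hA
    exact lempty _ _ _ hi
  | succ N ih =>
    intro A hA hc
    obtain ⟨v, hv⟩ : A.Nonempty := by
      rw [← Set.ncard_pos]; omega
    have h1 : insert v (A \ {v}) = A := by
      rw [Set.insert_sdiff_singleton, Set.insert_eq_of_mem hv]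
    have h2 := Set.ncard_sdiff_singleton_add_one hv (Set.toFinite _)
    have h3 := lv_cone G (A \ {v}) v (by simp) (fun a ha => hc v hv a ha.1 (fun e => ha.2 (by rw [e]; rfl))) i
      (ih (A \ {v}) (by omega) (fun a ha b hb => hc a ha.1 b hb.1))
    rwa [h1] at h3

theorem lv_susp {V : Type} [Finite V] (G : SimpleGraph V) (A : Set V) (s t : V) (hs : s ∈ A) (ht : t ∈ A)
    (hst : s ≠ t) (hn : ¬ G.Adj s t) (h : ∀ u ∈ A, u ≠ s → u ≠ t → G.Adj u s ∧ G.Adj u t) (i : ℕ) :
    LV (G.induce A) i := by
  refine lsusp ↥A (G.induce A) ⟨s, hs⟩ ⟨t, ht⟩ i (fun e => hst (congrArg Subtype.val e)) hn ?_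
  intro u hu1 hu2
  exact h u.1 u.2 (fun e => hu1 (Subtype.ext e)) (fun e => hu2 (Subtype.ext e))

theorem CR.mono {V : Type} [Finite V] {G : SimpleGraph V} {A B : Set V} {r : ℕ} (h : CR G B r) (hAB : A ⊆ B) :
    CR G A r := by
  intro T hT hTA hr
  have h1 := h T hT (hTA.trans hAB) hr
  have h2 : {u : V | u ∈ B ∧ ∀ t ∈ T, G.Adj t u} ⊆
      {u : V | u ∈ A ∧ ∀ t ∈ T, G.Adj t u} ∪ (B \ A) := by
    intro u hu
    by_cases hA : u ∈ A
    · exact Or.inl ⟨hA, hu.2⟩
    · exact Or.inr ⟨hu.1, hA⟩
  have h3 := (Set.ncard_le_ncard h2 (Set.toFinite _)).trans (Set.ncard_union_le _ _)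
  have h4 := Set.ncard_sdiff_add_ncard_of_subset hAB (Set.toFinite _)
  omega

theorem few {V : Type} [Finite V] (G : SimpleGraph V) : ∀ (N : ℕ) (A : Set V) (r : ℕ), A.ncard = N → 1 ≤ r →
    CR G A r → ∀ i, r ≤ i → LV (G.induce A) i := by
  classical
  intro N
  induction N using Nat.strong_induction_on with
  | _ N ih =>
    intro A r hA hr hCR i hi
    by_cases h : ∃ v ∈ A, ∃ u ∈ A, ∃ w ∈ A, u ≠ v ∧ w ≠ v ∧ u ≠ w ∧ ¬ G.Adj v u ∧ ¬ G.Adj v w
    · obtain ⟨v, hv, u, hu, w, hw, huv, hwv, huw, hvu, hvw⟩ := h
      have hsub : (A ∩ G.neighborSet v).ncard + 3 ≤ A.ncard := by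
        have h1 : (A ∩ G.neighborSet v) ∪ {v, u, w} ⊆ A := by
          intro x hx
          rcases hx with hx | hx
          · exact hx.1
          · simp only [Set.mem_insert_iff, Set.mem_singleton_iff] at hx
            rcases hx with rfl | rfl | rfl <;> assumption
        have h2 : Disjoint (A ∩ G.neighborSet v) {v, u, w} := by
          rw [Set.disjoint_left]
          intro x hx hx2
          simp only [Set.mem_insert_iff, Set.mem_singleton_iff] at hx2
          have h3 : G.Adj v x := hx.2
          rcases hx2 with rfl | rfl | rfl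
          · exact G.loopless.irrefl _ h3
          · exact hvu h3
          · exact hvw h3
        have h3 := Set.ncard_le_ncard h1 (Set.toFinite _)
        rw [Set.ncard_union_eq h2 (Set.toFinite _) (Set.toFinite _)] at h3
        have h4 : ({v, u, w} : Set V).ncard = 3 := by
          rw [Set.ncard_eq_three]
          exact ⟨v, u, w, huv.symm, hwv.symm, huw, rfl⟩
        omega
      rcases Nat.lt_or_ge r 2 with hr2 | hr2
      · exfalso
        have hr1 : r = 1 := by omega
        subst hr1
        have h1 := hCR {v} (by simp) (by simpa using hv) (by simp)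
        have h2 : {x : V | x ∈ A ∧ ∀ t ∈ ({v} : Finset V), G.Adj t x} = A ∩ G.neighborSet v := by
          ext x
          simp
        rw [h2] at h1
        omega
      · refine lv_add G A v hv i ?_ (fun j hj => ?_)
        · have h2 := Set.ncard_sdiff_singleton_add_one hv (Set.toFinite _)
          exact ih (A \ {v}).ncard (by omega) (A \ {v}) r rfl hr (hCR.mono Set.sdiff_subset) i hi
        · refine ih (A ∩ G.neighborSet v).ncard (by omega) _ (r - 1) rfl (by omega) ?_ j (by omega)
          intro T hT hTA hTr
          have hvT : v ∉ T := fun hvT => by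
            have : G.Adj v v := (hTA hvT).2
            exact G.loopless.irrefl _ this
          have h1 := hCR (insert v T) (by
              rw [Finset.coe_insert]
              refine SimpleGraph.IsClique.insert hT ?_
              intro b hb _
              exact (hTA hb).2) (by
              rw [Finset.coe_insert]
              exact Set.insert_subset hv (hTA.trans Set.inter_subset_left)) (by
              rw [Finset.card_insert_of_notMem hvT]; omega)
          have h2 : {x : V | x ∈ A ∧ ∀ t ∈ insert v T, G.Adj t x} =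
              {x : V | x ∈ A ∩ G.neighborSet v ∧ ∀ t ∈ T, G.Adj t x} := by
            ext x
            simp only [Finset.mem_insert, forall_eq_or_imp, Set.mem_ofPred_eq, Set.mem_inter_iff,
              SimpleGraph.mem_neighborSet]
            tauto
          rw [h2] at h1
          omega
    · push Not at h
      by_cases h2 : ∃ s ∈ A, ∃ t ∈ A, s ≠ t ∧ ¬ G.Adj s t
      · obtain ⟨s, hs, t, ht, hst, hn⟩ := h2
        refine lv_susp G A s t hs ht hst hn ?_ i
        intro u hu hus hut
        constructor
        · by_contra hc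
          exact hc (h s hs t ht u hu hst.symm hus hut.symm hn).symm
        · by_contra hc
          exact hc (h t ht s hs u hu hst hut hus.symm (fun e => hn e.symm)).symm
      · push Not at h2
        exact lv_clique G i (by omega) _ A rfl h2

end Pool.Agent.Q24.SG
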