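import Pool.Agent.Q24.SG.Clus
import Pool.Agent.Q68.DO.Inf

/-!
# Infinite vertex sets
-/

set_option autoImplicit false

namespace Pool.Agent.Q24.SG

open Module Pool.Agent.W907.SG Pool.Agent.W907.SM Pool.Agent.TH652.Above Pool.Agent.Q68.DO Pool.Agent.Y132.SI
  Pool.Agent.W461.SGN Pool.Agent.W397.SG
open Pool.Agent.TH652.Join (join)

/-- A class of graphs on arbitrary, finite or infinite, vertex sets. -/
inductive ARI : ℕ → ∀ {V : Type}, SimpleGraph V → Prop
  /-- the finite graphs in the class `AR n` -/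
  | ar {n : ℕ} {V : Type} (G : SimpleGraph V) : AR n G → ARI n G
  /-- the graphs in the class `AMI n` of the starting files -/
  | ami {n : ℕ} {V : Type} (G : SimpleGraph V) : AMI n G → ARI n G
  /-- graphs all of whose finite full subgraphs belong to the class -/
  | locfin {n : ℕ} {V : Type} (G : SimpleGraph V) : (∀ A : Set V, A.Finite → ARI n (G.induce A)) → ARI n G
  /-- full subcomplexes -/
  | full {n : ℕ} {V : Type} (G : SimpleGraph V) (A : Set V) : ARI n G → ARI n (G.induce A)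
  /-- joins -/
  | join {m n : ℕ} {V U : Type} (G : SimpleGraph V) (H : SimpleGraph U) : ARI m G → ARI n H →
      ARI (m + n) (join G H)
  /-- from `n` to `n + 1` -/
  | succ {n : ℕ} {V : Type} (G : SimpleGraph V) : ARI n G → ARI (n + 1) G
  /-- from `2 m + 1` to `2 m` -/
  | pred {m : ℕ} {V : Type} (G : SimpleGraph V) : ARI (2 * m + 1) G → ARI (2 * m) G
  /-- deleting an edge whose link is in the class `n` -/
  | del {n : ℕ} {V : Type} (G : SimpleGraph V) (s t : V) : G.Adj s t → ARI (n + 2) G →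
      ARI n (G.induce (G.neighborSet s ∩ G.neighborSet t)) → ARI (n + 2) (G.deleteEdges {s(s, t)})
  /-- even length: the vertices whose links are not in the class `2 m + 1` span a subcomplex in the class
  `2 m + 2` -/
  | loc {m : ℕ} {V : Type} (G : SimpleGraph V) (B : Set V) : ARI (2 * m + 2) (G.induce B) →
      (∀ v, v ∉ B → ARI (2 * m + 1) (G.induce (G.neighborSet v))) → ARI (2 * m + 2) G
  /-- adding a vertex whose link is in the class `n` -/
  | vert {n : ℕ} {V : Type} (G : SimpleGraph V) (v : V) : ARI (n + 2) (G.induce {v}ᶜ) →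
      ARI n (G.induce (G.neighborSet v)) → ARI (n + 2) G
  /-- gluing along a full subcomplex of the class `n` -/
  | glue {n : ℕ} {V : Type} (G : SimpleGraph V) (A B : Set V) : A ∪ B = Set.univ →
      (∀ a ∈ A, a ∉ B → ∀ b ∈ B, b ∉ A → ¬ G.Adj a b) → ARI (n + 2) (G.induce A) → ARI (n + 2) (G.induce B) →
      ARI n (G.induce (A ∩ B)) → ARI (n + 2) G
  /-- isomorphic graphs -/
  | iso {n : ℕ} {V U : Type} (G : SimpleGraph V) (H : SimpleGraph U) : Nonempty (G ≃g H) → ARI n G → ARI n H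

theorem QI_locB {m : ℕ} {V : Type} (G : SimpleGraph V) (B : Set V) (hB : QI (2 * m + 2) (G.induce B))
    (h : ∀ v, v ∉ B → QI (2 * m + 1) (G.induce (G.neighborSet v))) : QI (2 * m + 2) G := by
  intro D hD
  have : Finite ↥D := hD
  refine Q_locB (G.induce D) {x | x.1 ∈ B} (Q_sub2 G hD _ B _ (fun _ h => h) hB) fun v hv => ?_
  exact Q_sub2 G hD _ (G.neighborSet v.1) _ (fun _ h => h) (h v.1 hv)

theorem QI_of_ARI {n : ℕ} {V : Type} {G : SimpleGraph V} (h : ARI n G) : QI n G := by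
  induction h with
  | ar G h => exact QI_of_Q (Q_of_AR h)
  | ami G h => exact fun A hA => Q_of_P _ (PI_of_AMI h A hA)
  | locfin G _ ih =>
    intro A hA
    have : Finite ↥A := hA
    exact Q_of_QI (ih A hA)
  | full G A _ ih => exact QI_emb G (G.induce A) Subtype.val Subtype.val_injective (fun _ _ => Iff.rfl) ih
  | join G H _ _ ih1 ih2 => exact QI_join G H ih1 ih2
  | succ G _ ih => exact fun A hA => ⟨(ih A hA).1, fun B i hi => (ih A hA).2 B i (by omega)⟩
  | pred G _ ih => exact fun A hA => ⟨(ih A hA).1, fun B i hi => (ih A hA).2 B i (by omega)⟩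
  | del G s t hst _ _ ih1 ih2 => exact QI_del G s t hst ih1 ih2
  | loc G B _ _ ih1 ih2 => exact QI_locB G B ih1 ih2
  | vert G v _ _ ih1 ih2 => exact QI_vert G v ih1 ih2
  | glue G A B hAB hno _ _ _ ih1 ih2 ih3 => exact QI_glue G A B hAB hno ih1 ih2 ih3
  | iso G H e _ ih =>
    obtain ⟨e⟩ := e
    exact QI_emb G H e.symm e.symm.injective (fun _ _ => e.symm.map_adj_iff) ih

theorem CR_sub {V : Type} (G : SimpleGraph V) (D : Set V) (hD : D.Finite) (C : Set V) (hC : C.Finite) {r : ℕ}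
    (h : CR G C r) : CR (G.induce D) {x | x.1 ∈ C} r := by
  intro T hT hTC hr
  have h1 := h (T.map ⟨Subtype.val, Subtype.val_injective⟩) (by
      intro a ha b hb hab
      rw [Finset.mem_coe, Finset.mem_map] at ha hb
      obtain ⟨x, hx, rfl⟩ := ha
      obtain ⟨y, hy, rfl⟩ := hb
      exact hT hx hy fun e => hab (by rw [e])) (by
      intro a ha
      rw [Finset.mem_coe, Finset.mem_map] at ha
      obtain ⟨x, hx, rfl⟩ := ha
      exact hTC hx) (by rw [Finset.card_map, hr])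
  have h2 : Subtype.val '' {x : ↥D | x.1 ∈ C} = C ∩ D := by
    ext x
    simp only [Set.mem_image, Set.mem_ofPred_eq, Subtype.exists, exists_and_left, exists_prop,
      exists_eq_right_right, Set.mem_inter_iff]
  have h3 : ({x : ↥D | x.1 ∈ C} : Set ↥D).ncard = (C ∩ D).ncard := by
    rw [← h2, Set.ncard_image_of_injective _ Subtype.val_injective]
  have h4 : {u : V | u ∈ C ∧ ∀ t ∈ T.map ⟨Subtype.val, Subtype.val_injective⟩, G.Adj t u} ⊆
      Subtype.val '' {u : ↥D | u ∈ {x : ↥D | x.1 ∈ C} ∧ ∀ t ∈ T, (G.induce D).Adj t u} ∪ (C \ D) := by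
    rintro u ⟨hu1, hu2⟩
    by_cases hu : u ∈ D
    · refine Or.inl ⟨⟨u, hu⟩, ⟨hu1, fun t ht => hu2 t.1 (Finset.mem_map.2 ⟨t, ht, rfl⟩)⟩, rfl⟩
    · exact Or.inr ⟨hu1, hu⟩
  have : Finite ↥D := hD
  have h5 := (Set.ncard_le_ncard h4 (((Set.toFinite _).image _).union (hC.subset Set.sdiff_subset))).trans
    (Set.ncard_union_le _ _)
  rw [Set.ncard_image_of_injective _ Subtype.val_injective] at h5
  have h6 := Set.ncard_inter_add_ncard_sdiff_eq_ncard C D hC
  omega

/-- infinitely many clusters -/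
theorem ARI_clusters {m : ℕ} {V ι : Type} (G : SimpleGraph V) (B : Set V) (c : V → ι)
    (hadj : ∀ a ∈ B, ∀ b ∈ B, G.Adj a b → c a = c b)
    (hfin : ∀ j, {v | v ∈ B ∧ c v = j}.Finite)
    (hcl : ∀ j, CR G {v | v ∈ B ∧ c v = j} (m + 2)) : ARI (2 * m + 2) (G.induce B) := by
  refine ARI.locfin _ fun D hD => ?_
  refine ARI.ar _ ?_
  have : Finite ↥D := hD
  have h1 : AR (2 * m + 2) ((G.induce (Subtype.val '' D)).induce Set.univ) := by
    have : Finite ↥(Subtype.val '' D) := hD.image _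
    refine AR_clusters (G.induce (Subtype.val '' D)) (fun x => c x.1) _ Set.univ rfl ?_ ?_
    · rintro ⟨a, a', ha, rfl⟩ _ ⟨b, b', hb, rfl⟩ _ hab
      exact hadj _ a'.2 _ b'.2 hab
    · intro j
      have h2 := CR_sub G (Subtype.val '' D) (hD.image _) _ (hfin j) (hcl j)
      have h3 : {v : ↥(Subtype.val '' D) | v ∈ Set.univ ∧ c v.1 = j} =
          {x | x.1 ∈ {v | v ∈ B ∧ c v = j}} := by
        ext ⟨x, x', hx, rfl⟩
        exact ⟨fun h => ⟨x'.2, h.2⟩, fun h => ⟨trivial, h.2⟩⟩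
      rw [h3]
      exact h2
  refine AR.iso _ _ ⟨?_⟩ h1
  exact
    { toFun := fun x => ⟨⟨x.1.1, by obtain ⟨y, hy, h⟩ := x.1.2; rw [← h]; exact y.2⟩, by
        obtain ⟨y, hy, h⟩ := x.1.2
        have : (⟨x.1.1, by rw [← h]; exact y.2⟩ : ↥B) = y := Subtype.ext h.symm
        rw [this]; exact hy⟩
      invFun := fun y => ⟨⟨y.1.1, y.1, y.2, rfl⟩, trivial⟩
      left_inv := fun x => rfl
      right_inv := fun y => rfl
      map_rel_iff' := Iff.rfl }

/-- vanishing above the middle for the finite full subcomplexes -/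
theorem above_ARI {n : ℕ} {V : Type} {G : SimpleGraph V} (h : ARI n G) (A : Set V) (hA : A.Finite)
    [Fintype ↥A] [LinearOrder ↥A] (i : ℕ) (hi : n < 2 * i) : L2Van (G.induce A) i := by
  have h1 := (QI_of_ARI h A hA).2 Set.univ i hi
  exact (lv_univ _ i).1 h1 _ _

/-- growth above the middle -/
theorem growthI {V : Type} [LinearOrder V] {G : SimpleGraph V} {n : ℕ} (hG : ARI n G) (A : Finset V)
    (ε : ℝ) (hε : 0 < ε) :
    ∃ E : Finset (W G), (1 : W G) ∉ E ∧ ∀ H : Subgroup (W G), H.FiniteIndex →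
      (∀ g ∈ E, ∀ x : W G, x * g * x⁻¹ ∉ H) → ∀ i : ℕ, n < 2 * i →
        (finrank ℝ (HInvOn G A H i) : ℝ) ≤ ε * H.index := by
  classical
  letI : Fintype ↥(A : Set V) := Fintype.ofFinite _
  obtain ⟨K, hK⟩ : ∃ K : ℕ, K = Fintype.card ↥(A : Set V) + 1 := ⟨_, rfl⟩
  obtain ⟨N, hN⟩ := exists_nat_gt (1 / ε)
  have hN0 : (0 : ℝ) < N := lt_of_le_of_lt (by positivity) hN
  have hNε : 1 < N * ε := (div_lt_iff₀ hε).1 hN
  have h1 : ∀ i : ℕ, ∃ Ei : Finset (W G), (1 : W G) ∉ Ei ∧ (n < 2 * i →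
      ∀ H : Subgroup (W G), H.FiniteIndex → (∀ g ∈ Ei, ∀ x : W G, x * g * x⁻¹ ∉ H) →
        N * finrank ℝ (HInvOn G A H i) ≤ H.index) := by
    intro i
    by_cases hi : n < 2 * i
    · obtain ⟨Ei, h2, h3⟩ := growthOn_one G A i (above_ARI hG (A : Set V) A.finite_toSet i hi) N
      exact ⟨Ei, h2, fun _ => h3⟩
    · exact ⟨∅, Finset.notMem_empty _, fun h => absurd h hi⟩
  choose Ef hEf1 hEf2 using h1
  refine ⟨(Finset.range K).biUnion Ef, ?_, ?_⟩
  · rw [Finset.mem_biUnion]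
    rintro ⟨i, _, h⟩
    exact hEf1 i h
  intro H hfin hE i hi
  have hidx : (0 : ℝ) ≤ H.index := Nat.cast_nonneg _
  by_cases hiK : i < K
  · have h2 := hEf2 i hi H hfin fun g hg x =>
      hE g (Finset.mem_biUnion.2 ⟨i, Finset.mem_range.2 hiK, hg⟩) x
    have h3 : (N : ℝ) * (finrank ℝ (HInvOn G A H i) : ℝ) ≤ H.index := by exact_mod_cast h2
    have h4 : (finrank ℝ (HInvOn G A H i) : ℝ) ≤ N * ε * (finrank ℝ (HInvOn G A H i) : ℝ) := by
      have h5 : (0 : ℝ) ≤ (finrank ℝ (HInvOn G A H i) : ℝ) := Nat.cast_nonneg _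
      nlinarith
    nlinarith
  · haveI : Finite (Quotient (QuotientGroup.rightRel H)) :=
      Finite.of_equiv _ (QuotientGroup.quotientRightRelEquivQuotientLeftRel H).symm
    letI : Fintype (Quotient (QuotientGroup.rightRel H)) := Fintype.ofFinite _
    rw [finrank_HInvOn, beta_big (G.induce (A : Set V)) _ Set.univ ∅ (by omega), Nat.cast_zero]
    positivity

end Pool.Agent.Q24.SG
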