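import Pool.Agent.Q24.SG.Clus
import Pool.Agent.W907.SG.All

/-!
# Links of flag homology spheres
-/

set_option autoImplicit false

namespace Pool.Agent.Q24.SG

open Pool.Agent.W907.SG Pool.Agent.W907.SM Pool.Agent.TH652.Above Pool.Agent.TH652.Dual Module

theorem beta_set {V : Type} [Fintype V] [LinearOrder V] (G : SimpleGraph V) (X : Set V) (i : ℕ)
    [Fintype ↥X] :
    beta G (fun _ => (- LinearMap.id : ℝ →ₗ[ℝ] ℝ)) X ∅ i =
      beta (G.induce X) (fun _ => (- LinearMap.id : ℝ →ₗ[ℝ] ℝ)) Set.univ ∅ i := by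
  have h := Pool.Agent.W907.SG.tr ↥X V ℝ ℝ G (G.induce X) (fun _ => (- LinearMap.id : ℝ →ₗ[ℝ] ℝ))
    (fun u => u.1) (fun x y hxy => hxy) (fun u u' => Iff.rfl) i
  rw [Subtype.range_coe_subtype, Set.ofPred_mem_eq] at h
  exact h

theorem beta_sub {V : Type} [Fintype V] [LinearOrder V] (G : SimpleGraph V) (D : Set V) [Fintype ↥D]
    (X : Set ↥D) (i : ℕ) :
    beta (G.induce D) (fun _ => (- LinearMap.id : ℝ →ₗ[ℝ] ℝ)) X ∅ i =
      beta G (fun _ => (- LinearMap.id : ℝ →ₗ[ℝ] ℝ)) (Subtype.val '' X) ∅ i := by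
  classical
  have : Fintype ↥X := Fintype.ofFinite _
  rw [beta_set (G.induce D) X i]
  have h := Pool.Agent.W907.SG.tr ↥X V ℝ ℝ G ((G.induce D).induce X) (fun _ => (- LinearMap.id : ℝ →ₗ[ℝ] ℝ))
    (fun u => u.1.1) (fun x y hxy => hxy) (fun u u' => Iff.rfl) i
  rw [← h]
  congr 1
  ext x
  constructor
  · rintro ⟨y, rfl⟩
    exact ⟨y.1, y.2, rfl⟩
  · rintro ⟨y, hy, rfl⟩
    exact ⟨⟨y, hy⟩, rfl⟩

/-- links of flag homology spheres are flag homology spheres -/
theorem HSph_link {n d : ℕ} {V : Type} [Fintype V] [LinearOrder V] {G : SimpleGraph V} (hS : HSph n G)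
    (S : Finset V) (hcl : G.IsClique (S : Set V)) (hd : d + S.card = n) [Fintype ↥(lk G S)] :
    HSph d (G.induce (lk G S)) := by
  classical
  intro R hR i
  rw [beta_sub]
  have hR1 : G.IsClique ((R.map ⟨Subtype.val, Subtype.val_injective⟩ : Finset V) : Set V) := by
    intro a ha b hb hab
    rw [Finset.mem_coe, Finset.mem_map] at ha hb
    obtain ⟨x, hx, rfl⟩ := ha
    obtain ⟨y, hy, rfl⟩ := hb
    exact hR hx hy fun e => hab (by rw [e])
  have hR2 : ((R.map ⟨Subtype.val, Subtype.val_injective⟩ : Finset V) : Set V) ⊆ lk G S := by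
    intro a ha
    rw [Finset.mem_coe, Finset.mem_map] at ha
    obtain ⟨x, _, rfl⟩ := ha
    exact x.2
  obtain ⟨h1, h2⟩ := (lk_iff hcl _).1 ⟨hR1, hR2⟩
  have h3 := hS _ h2 i
  have h4 : lk G (S ∪ R.map ⟨Subtype.val, Subtype.val_injective⟩) =
      Subtype.val '' (lk (G.induce (lk G S)) R) := by
    ext x
    constructor
    · intro hx
      refine ⟨⟨x, fun s hs => hx s (Finset.mem_union_left _ hs)⟩, fun r hr => ?_, rfl⟩
      exact hx r.1 (Finset.mem_union_right _ (Finset.mem_map.2 ⟨r, hr, rfl⟩))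
    · rintro ⟨y, hy, rfl⟩ s hs
      rw [Finset.mem_union, Finset.mem_map] at hs
      rcases hs with hs | ⟨r, hr, rfl⟩
      · exact y.2 s hs
      · exact hy r hr
  rw [h4] at h3
  rw [h3, Finset.card_union_of_disjoint h1, Finset.card_map]
  have h5 : i + (S.card + R.card) = n ↔ i + R.card = d := by omega
  simp only [h5]

end Pool.Agent.Q24.SG
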