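import Pool.Agent.Q24.SG.Inf
import Pool.Agent.W338.SG.ADD
import Pool.Agent.Y132.SI.Free

/-!
# Betti numbers above the middle: the contribution of the bad vertices
-/

set_option autoImplicit false

namespace Pool.Agent.Q24.SG

open Module Pool.Agent.W907.SG Pool.Agent.W907.SM Pool.Agent.TH652.Above Pool.Agent.Q68.DO Pool.Agent.Y132.SI
  Pool.Agent.W461.SGN Pool.Agent.W397.SG

/-- a `W G`-set on which the elements of `E` have no fixed points -/
def Okk {V X : Type} (G : SimpleGraph V) (E : Finset (W G)) (a : V → X → X) (ev : X → W G → X) : Prop :=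
  (∀ v x, a v (a v x) = x) ∧ (∀ u v, G.Adj u v → ∀ x, a u (a v x) = a v (a u x)) ∧
    (∀ x, ev x 1 = x) ∧ (∀ x g h, ev x (g * h) = ev (ev x g) h) ∧ (∀ x v, ev x ((cox G).simple v) = a v x) ∧
    (∀ g ∈ E, ∀ x, ev x g ≠ x)

theorem Okk.mono {V X : Type} {G : SimpleGraph V} {E E' : Finset (W G)} {a : V → X → X} {ev : X → W G → X}
    (h : Okk G E a ev) (hE : E' ⊆ E) : Okk G E' a ev :=
  ⟨h.1, h.2.1, h.2.2.1, h.2.2.2.1, h.2.2.2.2.1, fun g hg => h.2.2.2.2.2 g (hE hg)⟩

/-- smallness of the Betti numbers of a full subcomplex -/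
theorem small_on {V : Type} [Fintype V] [LinearOrder V] (G : SimpleGraph V) (A : Set V) (i : ℕ)
    (hL : LV (G.induce A) i) (N : ℕ) : ∃ E : Finset (W G), (1 : W G) ∉ E ∧ ∀ (X : Type) [Fintype X]
      (a : V → X → X) (ev : X → W G → X), Okk G E a ev → N * beta G (pull ℝ a) A ∅ i ≤ Fintype.card X := by
  classical
  letI : Fintype ↥A := Fintype.ofFinite _
  obtain ⟨E, h1, h2⟩ := Pool.Agent.W338.SG.small_restrict small tr G A i (hL _ _) N
  exact ⟨E, h1, fun X _ a ev h => h2 X a ev h.1 h.2.1 h.2.2.1 h.2.2.2.1 h.2.2.2.2.1 h.2.2.2.2.2⟩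

theorem peelN {V : Type} [Fintype V] [LinearOrder V] (G : SimpleGraph V) (j : ℕ) (B : Set V)
    (h : ∀ D : Set V, ¬ D ⊆ B → ∃ v ∈ D, v ∉ B ∧ LV (G.induce (D ∩ G.neighborSet v)) j) :
    ∀ (k : ℕ) (A : Set V), (A \ B).ncard = k → ∀ N : ℕ, ∃ E : Finset (W G), (1 : W G) ∉ E ∧
      ∀ (X : Type) [Fintype X] (a : V → X → X) (ev : X → W G → X), Okk G E a ev →
        N * beta G (pull ℝ a) A ∅ (j + 1) ≤ N * beta G (pull ℝ a) (A ∩ B) ∅ (j + 1) + Fintype.card X := by
  classical
  intro k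
  induction k with
  | zero =>
    intro A hA N
    rw [Set.ncard_eq_zero, Set.sdiff_eq_empty] at hA
    refine ⟨∅, Finset.notMem_empty _, fun X _ a ev _ => ?_⟩
    rw [Set.inter_eq_left.2 hA]
    omega
  | succ k ih =>
    intro A hA N
    have hAB : ¬ A ⊆ B := by
      intro h1
      rw [Set.sdiff_eq_empty.2 h1, Set.ncard_empty] at hA
      omega
    obtain ⟨v, hv, hvB, hL⟩ := h A hAB
    obtain ⟨E1, hE1, hX1⟩ := ih (A \ {v}) (by
      have h2 := Set.ncard_sdiff_singleton_add_one (s := A \ B) (a := v) ⟨hv, hvB⟩ (Set.toFinite _)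
      have h3 : (A \ {v}) \ B = (A \ B) \ {v} := by
        ext x
        simp only [Set.mem_sdiff, Set.mem_singleton_iff]
        tauto
      rw [h3]
      omega) (2 * N)
    obtain ⟨E2, hE2, hX2⟩ := small_on G (A ∩ G.neighborSet v) j hL (2 * N)
    refine ⟨E1 ∪ E2, by rw [Finset.mem_union]; exact fun h => h.elim hE1 hE2, fun X _ a ev hOk => ?_⟩
    have b1 := (vert V ℝ (X → ℝ) G (pull ℝ a) (A \ {v}) ∅ v (by simp) (by simp)).2 j
    have hins : insert v (A \ {v}) = A := by
      rw [Set.insert_sdiff_singleton, Set.insert_eq_of_mem hv]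
    have hlk : (A \ {v}) ∩ G.neighborSet v = A ∩ G.neighborSet v := by
      ext u
      simp only [Set.mem_inter_iff, Set.mem_sdiff, Set.mem_singleton_iff, SimpleGraph.mem_neighborSet]
      constructor
      · rintro ⟨⟨h1, _⟩, h2⟩; exact ⟨h1, h2⟩
      · rintro ⟨h1, h2⟩; exact ⟨⟨h1, fun e => h2.ne e.symm⟩, h2⟩
    rw [hins, hlk] at b1
    have b2 := eig V ℝ (X → ℝ) G (pull ℝ a) (A ∩ G.neighborSet v) ∅ v (by norm_num)
      (fun m => by
        funext x
        rw [pull_apply, pull_apply, hOk.1])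
      (fun u hu m => by
        have hu' : G.Adj u v := by
          rcases hu with hu | hu
          · exact ((G.mem_neighborSet v u).1 hu.2).symm
          · exact absurd hu (by simp)
        funext x
        rw [pull_apply, pull_apply, pull_apply, pull_apply, hOk.2.1 u v hu']) j
    have h3 := hX1 X a ev (hOk.mono Finset.subset_union_left)
    have h4 := hX2 X a ev (hOk.mono Finset.subset_union_right)
    have hint : (A \ {v}) ∩ B = A ∩ B := by
      ext u
      simp only [Set.mem_inter_iff, Set.mem_sdiff, Set.mem_singleton_iff]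
      constructor
      · rintro ⟨⟨h1, _⟩, h2⟩; exact ⟨h1, h2⟩
      · rintro ⟨h1, h2⟩; exact ⟨⟨h1, fun e => hvB (e ▸ h2)⟩, h2⟩
    rw [hint] at h3
    have h5 := b1.trans (Nat.add_le_add_left b2 _)
    have h6 := Nat.mul_le_mul_left (2 * N) h5
    rw [Nat.mul_add] at h6
    have h7 : 2 * (N * beta G (pull ℝ a) A ∅ (j + 1)) = 2 * N * beta G (pull ℝ a) A ∅ (j + 1) := by ring
    have h8 : 2 * (N * beta G (pull ℝ a) (A ∩ B) ∅ (j + 1)) =
        2 * N * beta G (pull ℝ a) (A ∩ B) ∅ (j + 1) := by ring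
    omega

/-- the number of the cliques with `i` elements in `A` -/
noncomputable def fnum {V : Type} (G : SimpleGraph V) (A : Set V) (i : ℕ) : ℕ :=
  {T : Finset V | G.IsClique (T : Set V) ∧ (T : Set V) ⊆ A ∧ T.card = i}.ncard

theorem fnum_univ {V : Type} [Fintype V] (G : SimpleGraph V) (i : ℕ)
    [DecidablePred fun T : Finset V => G.IsClique (T : Set V) ∧ T.card = i] :
    fnum G Set.univ i = ((Finset.univ : Finset (Finset V)).filter
      (fun T : Finset V => G.IsClique (T : Set V) ∧ T.card = i)).card := by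
  rw [fnum, ← Set.ncard_coe_finset]
  congr 1
  ext T
  simp

/-- the trivial bound -/
theorem beta_triv {V X : Type} [Fintype V] [LinearOrder V] [Fintype X] (G : SimpleGraph V) (a : V → X → X)
    (hinv : ∀ v x, a v (a v x) = x) (hcomm : ∀ u v, G.Adj u v → ∀ x, a u (a v x) = a v (a u x))
    (hσ : ∀ (T : Finset V) (t : V), t ∉ T → G.IsClique ((insert t T : Finset V) : Set V) →
      ∃ σ : X → Bool, (∀ x, σ (a t x) = !(σ x)) ∧ ∀ u ∈ T, ∀ x, σ (a u x) = σ x) (i : ℕ) :
    beta G (pull ℝ a) Set.univ ∅ i * 2 ^ i ≤ fnum G Set.univ i * Fintype.card X := by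
  classical
  have h1 : beta G (pull ℝ a) Set.univ ∅ i ≤ finrank ℝ (KK G (pull ℝ a) Set.univ ∅ i) :=
    (Nat.sub_le _ _).trans (Submodule.finrank_mono inf_le_left)
  refine (Nat.mul_le_mul_right _ h1).trans (le_of_eq ?_)
  rw [KK_dim, Finset.sum_mul, fnum_univ, Finset.card_eq_sum_ones, Finset.sum_mul, Finset.sum_filter]
  refine Finset.sum_congr rfl fun T _ => ?_
  by_cases hT : G.IsClique (T : Set V) ∧ T.card = i
  · rw [if_pos hT, if_pos hT, one_mul]
    have h3 := ET_dim' (two_ne_zero : (2 : ℝ) ≠ 0) G a hinv hcomm (fun T t h1 h2 => by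
      refine hσ T t h1 ?_
      convert h2) T hT.1
    rw [hT.2] at h3
    exact h3
  · rw [if_neg hT, if_neg hT, zero_mul]

end Pool.Agent.Q24.SG
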