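import Pool.Agent.Q24.SG.Num

/-!
# Betti numbers above the middle: the subcomplex of the bad vertices
-/

set_option autoImplicit false

namespace Pool.Agent.Q24.SG

open Module Pool.Agent.W907.SG Pool.Agent.W907.SM Pool.Agent.TH652.Above Pool.Agent.Q68.DO Pool.Agent.Y132.SI
  Pool.Agent.W461.SGN Pool.Agent.W397.SG

/-- `AR (2 m + 1)` gives vanishing in all degrees above `m` -/
theorem LV_of_AR {m : ℕ} {V : Type} {G : SimpleGraph V} {A : Set V} (h : AR (2 * m + 1) (G.induce A)) (j : ℕ)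
    (hj : m < j) : LV (G.induce A) j := by
  have h1 := (Q_of_AR h).2 Set.univ j (by omega)
  exact (lv_univ _ j).1 h1

/-- the index -/
theorem card_quot {V : Type} {G : SimpleGraph V} (H : Subgroup (W G))
    [Fintype (Quotient (QuotientGroup.rightRel H))] :
    Fintype.card (Quotient (QuotientGroup.rightRel H)) = H.index := by
  rw [← Nat.card_eq_fintype_card, Nat.card_congr (QuotientGroup.quotientRightRelEquivQuotientLeftRel H)]
  rfl

/-- the Betti numbers of the subcomplex of the cubes of type in `C`, inside those of type in `A` -/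
theorem beta_on {V : Type} [LinearOrder V] (G : SimpleGraph V) (A C : Finset V) (hC : C ⊆ A) (H : Subgroup (W G))
    [Fintype ↥(A : Set V)] [Fintype (Quotient (QuotientGroup.rightRel H))] (i : ℕ) :
    beta (G.induce (A : Set V)) (pull ℝ (fun (v : ↥(A : Set V)) x => aa G H v.1 x)) {x | x.1 ∈ C} ∅ i =
      finrank ℝ (HInvOn G C H i) := by
  classical
  let _ : Fintype ↥(C : Set V) := Fintype.ofFinite _
  rw [finrank_HInvOn]
  have h := tr ↥(C : Set V) ↥(A : Set V) ℝ (Quotient (QuotientGroup.rightRel H) → ℝ) (G.induce (A : Set V))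
    (G.induce (C : Set V)) (pull ℝ (fun (v : ↥(A : Set V)) x => aa G H v.1 x))
    (fun u => ⟨u.1, hC u.2⟩) (fun x y hxy => hxy) (fun u u' => Iff.rfl) i
  have hr : Set.range (fun u : ↥(C : Set V) => (⟨u.1, hC u.2⟩ : ↥(A : Set V))) = {x | x.1 ∈ C} := by
    ext x
    constructor
    · rintro ⟨y, rfl⟩
      exact y.2
    · intro hx
      exact ⟨⟨x.1, hx⟩, rfl⟩
  rw [hr] at h
  exact h

/-- the peeling condition -/
def Core {V : Type} (m : ℕ) (G : SimpleGraph V) (B : Set V) : Prop :=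
  ∀ D : Finset V, ¬ (D : Set V) ⊆ B → ∃ v ∈ D, v ∉ B ∧ AR (2 * m + 1) (G.induce ((D : Set V) ∩ G.neighborSet v))

theorem core_peel {V : Type} {m : ℕ} {G : SimpleGraph V} {B : Set V} (hB : Core m G B) (A : Finset V) (j : ℕ)
    (hj : m < j) : ∀ D : Set ↥(A : Set V), ¬ D ⊆ {x | x.1 ∈ B} → ∃ v ∈ D, v ∉ {x : ↥(A : Set V) | x.1 ∈ B} ∧
      LV ((G.induce (A : Set V)).induce (D ∩ (G.induce (A : Set V)).neighborSet v)) j := by
  classical
  intro D hD
  have hfin : (Subtype.val '' D : Set V).Finite := by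
    refine A.finite_toSet.subset ?_
    rintro _ ⟨x, _, rfl⟩
    exact x.2
  obtain ⟨v, hv, hvB, hAR⟩ := hB hfin.toFinset (by
    intro h
    apply hD
    intro x hx
    exact h (hfin.mem_toFinset.2 ⟨x, hx, rfl⟩))
  rw [Set.Finite.mem_toFinset] at hv
  obtain ⟨y, hy, rfl⟩ := hv
  refine ⟨y, hy, hvB, ?_⟩
  rw [lv_sub]
  refine lv_set ?_ (LV_of_AR hAR j hj)
  ext x
  simp only [Set.mem_image, Set.mem_inter_iff, SimpleGraph.mem_neighborSet, Set.Finite.coe_toFinset]
  constructor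
  · rintro ⟨z, ⟨hz1, hz2⟩, rfl⟩
    exact ⟨⟨z, hz1, rfl⟩, hz2⟩
  · rintro ⟨⟨z, hz, rfl⟩, hz2⟩
    exact ⟨z, ⟨hz, hz2⟩, rfl⟩

/-- above the middle, in one degree -/
theorem num_one {V : Type} [LinearOrder V] {G : SimpleGraph V} {m : ℕ} {B : Set V} (hB : Core m G B)
    (A C : Finset V) (hC : ∀ x, x ∈ C ↔ x ∈ A ∧ x ∈ B) (j : ℕ) (hj : m < j) (N : ℕ) :
    ∃ E : Finset (W G), (1 : W G) ∉ E ∧ ∀ H : Subgroup (W G), H.FiniteIndex →
      (∀ g ∈ E, ∀ x : W G, x * g * x⁻¹ ∉ H) →
        N * finrank ℝ (HInvOn G A H (j + 1)) ≤ N * finrank ℝ (HInvOn G C H (j + 1)) + H.index := by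
  classical
  let _ : Fintype ↥(A : Set V) := Fintype.ofFinite _
  obtain ⟨E, h1, h2⟩ := peelN (G.induce (A : Set V)) j {x | x.1 ∈ B} (core_peel hB A j hj) _ Set.univ rfl N
  refine ⟨E.image (emb G (A : Set V)), ?_, fun H hfin hE => ?_⟩
  · rw [Finset.mem_image]
    rintro ⟨x, hx, hx1⟩
    rw [← map_one (emb G (A : Set V))] at hx1
    exact h1 (emb_inj G (A : Set V) hx1 ▸ hx)
  have : Finite (Quotient (QuotientGroup.rightRel H)) :=
    Finite.of_equiv _ (QuotientGroup.quotientRightRelEquivQuotientLeftRel H).symm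
  let _ : Fintype (Quotient (QuotientGroup.rightRel H)) := Fintype.ofFinite _
  have h4 := h2 _ (fun (v : ↥(A : Set V)) x => aa G H v.1 x) (fun x g => ev G H x (emb G (A : Set V) g))
    ⟨fun v x => aa_inv G H v.1 x, fun u v h x => aa_comm G H u.1 v.1 h x,
      fun x => by show ev G H x (emb G (A : Set V) 1) = x; rw [map_one]; exact ev_one G H x,
      fun x g h => by
        show ev G H x (emb G (A : Set V) (g * h)) = _
        rw [map_mul]
        exact ev_mul G H x _ _,
      fun x v => by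
        show ev G H x (emb G (A : Set V) _) = _
        rw [emb_simple]
        rfl,
      fun g hg x => ev_free G H (fun y => hE _ (Finset.mem_image_of_mem _ hg) y) x⟩
  rw [card_quot, ← finrank_HInvOn] at h4
  have h5 := beta_on G A C (fun x hx => ((hC x).1 hx).1) H (j + 1)
  have h6 : (Set.univ ∩ {x : ↥(A : Set V) | x.1 ∈ B}) = {x | x.1 ∈ C} := by
    ext x
    simp only [Set.univ_inter, Set.mem_ofPred_eq, hC]
    exact ⟨fun h => ⟨x.2, h⟩, fun h => h.2⟩
  rw [h6, h5] at h4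
  exact h4

/-- no chains -/
theorem HInvOn_big {V : Type} [LinearOrder V] (G : SimpleGraph V) (A : Finset V) (H : Subgroup (W G)) (i : ℕ)
    (hi : A.card < i) : HInvOn G A H i = ⊥ := by
  rw [eq_bot_iff]
  intro c hc
  rw [Submodule.mem_bot]
  funext w T
  refine hc.2.1 w T ?_
  rintro ⟨_, h3, h4⟩
  have h5 := Finset.card_le_card h3
  omega

/-- above the middle -/
theorem num_above {V : Type} [LinearOrder V] {G : SimpleGraph V} {m : ℕ} {B : Set V} (hB : Core m G B)
    (A C : Finset V) (hC : ∀ x, x ∈ C ↔ x ∈ A ∧ x ∈ B) (ε : ℝ) (hε : 0 < ε) :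
    ∃ E : Finset (W G), (1 : W G) ∉ E ∧ ∀ H : Subgroup (W G), H.FiniteIndex →
      (∀ g ∈ E, ∀ x : W G, x * g * x⁻¹ ∉ H) → ∀ i : ℕ, 2 * m + 2 < 2 * i →
        (finrank ℝ (HInvOn G A H i) : ℝ) ≤ finrank ℝ (HInvOn G C H i) + ε * H.index := by
  classical
  obtain ⟨N, hN⟩ := exists_nat_gt (1 / ε)
  have hN0 : (0 : ℝ) < N := lt_of_le_of_lt (by positivity) hN
  have hNε : 1 < N * ε := (div_lt_iff₀ hε).1 hN
  have h1 : ∀ i : ℕ, ∃ Ei : Finset (W G), (1 : W G) ∉ Ei ∧ (2 * m + 2 < 2 * i →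
      ∀ H : Subgroup (W G), H.FiniteIndex → (∀ g ∈ Ei, ∀ x : W G, x * g * x⁻¹ ∉ H) →
        N * finrank ℝ (HInvOn G A H i) ≤ N * finrank ℝ (HInvOn G C H i) + H.index) := by
    intro i
    by_cases hi : 2 * m + 2 < 2 * i
    · obtain ⟨Ei, h2, h3⟩ := num_one hB A C hC (i - 1) (by omega) N
      have h4 : i - 1 + 1 = i := by omega
      rw [h4] at h3
      exact ⟨Ei, h2, fun _ => h3⟩
    · exact ⟨∅, Finset.notMem_empty _, fun h => absurd h hi⟩
  choose Ef hEf1 hEf2 using h1
  refine ⟨(Finset.range (A.card + 1)).biUnion Ef, ?_, ?_⟩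
  · rw [Finset.mem_biUnion]
    rintro ⟨i, _, h⟩
    exact hEf1 i h
  intro H hfin hE i hi
  have hidx : (0 : ℝ) ≤ H.index := Nat.cast_nonneg _
  by_cases hiK : i < A.card + 1
  · have h2 := hEf2 i hi H hfin fun g hg x =>
      hE g (Finset.mem_biUnion.2 ⟨i, Finset.mem_range.2 hiK, hg⟩) x
    have h3 : (N : ℝ) * (finrank ℝ (HInvOn G A H i) : ℝ) ≤
        N * (finrank ℝ (HInvOn G C H i) : ℝ) + H.index := by exact_mod_cast h2
    have h4 : (H.index : ℝ) ≤ N * (ε * H.index) := by nlinarith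
    have h5 : (N : ℝ) * (finrank ℝ (HInvOn G A H i) : ℝ) ≤
        N * ((finrank ℝ (HInvOn G C H i) : ℝ) + ε * H.index) := by
      rw [mul_add]; linarith
    exact le_of_mul_le_mul_left h5 hN0
  · rw [HInvOn_big G A H i (by omega), finrank_bot, Nat.cast_zero]
    positivity

/-- the trivial bound -/
theorem triv_on {V : Type} [LinearOrder V] (G : SimpleGraph V) (A : Finset V) :
    ∃ E : Finset (W G), (1 : W G) ∉ E ∧ ∀ H : Subgroup (W G), H.FiniteIndex →
      (∀ g ∈ E, ∀ x : W G, x * g * x⁻¹ ∉ H) → ∀ i : ℕ,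
        finrank ℝ (HInvOn G A H i) * 2 ^ i ≤ fnum G A i * H.index := by
  classical
  let _ : Fintype ↥(A : Set V) := Fintype.ofFinite _
  obtain ⟨E, h1, h2⟩ := exists_tor (G.induce (A : Set V))
  refine ⟨E.image (emb G (A : Set V)), ?_, fun H hfin hE i => ?_⟩
  · rw [Finset.mem_image]
    rintro ⟨x, hx, hx1⟩
    rw [← map_one (emb G (A : Set V))] at hx1
    exact h1 (emb_inj G (A : Set V) hx1 ▸ hx)
  have : Finite (Quotient (QuotientGroup.rightRel H)) :=
    Finite.of_equiv _ (QuotientGroup.quotientRightRelEquivQuotientLeftRel H).symm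
  let _ : Fintype (Quotient (QuotientGroup.rightRel H)) := Fintype.ofFinite _
  have h3 := beta_triv (G.induce (A : Set V)) (fun (v : ↥(A : Set V)) x => aa G H v.1 x)
    (fun v x => aa_inv G H v.1 x) (fun u v h x => aa_comm G H u.1 v.1 h x)
    (fun T t ht hc => exists_sigma (G.induce (A : Set V)) _ (fun x g => ev G H x (emb G (A : Set V) g))
      (fun x => by show ev G H x (emb G (A : Set V) 1) = x; rw [map_one]; exact ev_one G H x)
      (fun x g h => by
        show ev G H x (emb G (A : Set V) (g * h)) = _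
        rw [map_mul]
        exact ev_mul G H x _ _)
      (fun x v => by
        show ev G H x (emb G (A : Set V) _) = _
        rw [emb_simple])
      (fun T hT g hg hg1 x => ev_free G H (fun y =>
        hE _ (Finset.mem_image_of_mem _ (h2 T hT g hg hg1)) y) x) T t ht hc) i
  rw [card_quot, ← finrank_HInvOn] at h3
  have h4 : fnum (G.induce (A : Set V)) Set.univ i = fnum G A i := by
    unfold fnum
    rw [← Set.ncard_image_of_injective _ (up_inj (A := A))]
    congr 1
    ext T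
    constructor
    · rintro ⟨T', hT', rfl⟩
      exact ⟨(up_clique G T').2 hT'.1, fun x hx => up_sub T' hx, by rw [up_card]; exact hT'.2.2⟩
    · rintro ⟨k1, k2, k3⟩
      have k4 : T ⊆ A := fun x hx => k2 hx
      refine ⟨dn A T, ⟨?_, Set.subset_univ _, ?_⟩, up_dn k4⟩
      · rw [← up_clique, up_dn k4]; exact k1
      · rw [← up_card, up_dn k4]; exact k3
  rw [h4] at h3
  exact h3

end Pool.Agent.Q24.SG
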