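import Pool.Agent.Q24.SG.Num2
import Pool.Agent.W723.SM.L2EUL

/-!
# The Charney-Davis inequality with a defect
-/

set_option autoImplicit false

namespace Pool.Agent.Q24.SG

open Module Pool.Agent.W907.SG Pool.Agent.W907.SM Pool.Agent.TH652.Above Pool.Agent.Q68.DO Pool.Agent.Y132.SI
  Pool.Agent.W461.SGN Pool.Agent.W397.SG Pool.Agent.TH652.Dual

theorem fnum_induce {V : Type} (G : SimpleGraph V) (B : Set V) (i : ℕ) :
    fnum (G.induce B) Set.univ i = fnum G B i := by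
  classical
  unfold fnum
  rw [← Set.ncard_image_of_injective _ (Finset.map_injective (⟨Subtype.val, Subtype.val_injective⟩ : ↥B ↪ V))]
  congr 1
  ext T
  constructor
  · rintro ⟨T', hT', rfl⟩
    refine ⟨?_, ?_, by rw [Finset.card_map]; exact hT'.2.2⟩
    · intro a ha b hb hab
      rw [Finset.mem_coe, Finset.mem_map] at ha hb
      obtain ⟨x, hx, rfl⟩ := ha
      obtain ⟨y, hy, rfl⟩ := hb
      exact hT'.1 hx hy fun e => hab (by rw [e])
    · intro a ha
      rw [Finset.mem_coe, Finset.mem_map] at ha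
      obtain ⟨x, _, rfl⟩ := ha
      exact x.2
  · rintro ⟨k1, k2, k3⟩
    have h1 : (T.subtype (· ∈ B)).map ⟨Subtype.val, Subtype.val_injective⟩ = T := by
      ext x
      rw [Finset.mem_map]
      constructor
      · rintro ⟨y, hy, rfl⟩
        exact Finset.mem_subtype.1 hy
      · intro hx
        exact ⟨⟨x, k2 hx⟩, Finset.mem_subtype.2 hx, rfl⟩
    refine ⟨T.subtype (· ∈ B), ⟨?_, Set.subset_univ _, ?_⟩, h1⟩
    · intro a ha b hb hab
      rw [Finset.mem_coe, Finset.mem_subtype] at ha hb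
      exact k1 ha hb fun e => hab (Subtype.ext e)
    · rw [← k3]
      conv_rhs => rw [← h1, Finset.card_map]

/-- the trivial bound for a full subcomplex -/
theorem beta_triv_sgn {V X : Type} [Fintype V] [LinearOrder V] [Fintype X] (G : SimpleGraph V) (B : Set V)
    (a : V → X → X) (sgn : V → X → Bool)
    (hinv : ∀ v x, a v (a v x) = x) (hcomm : ∀ u v, G.Adj u v → ∀ x, a u (a v x) = a v (a u x))
    (hs : ∀ v x, sgn v (a v x) = !(sgn v x)) (ho : ∀ u v, u ≠ v → ∀ x, sgn u (a v x) = sgn u x) (i : ℕ) :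
    beta G (pull ℝ a) B ∅ i * 2 ^ i ≤ fnum G B i * Fintype.card X := by
  classical
  let _ : Fintype ↥B := Fintype.ofFinite _
  have h1 := tr ↥B V ℝ (X → ℝ) G (G.induce B) (pull ℝ a) (fun u => u.1) (fun x y hxy => hxy) (fun u u' => Iff.rfl) i
  rw [Subtype.range_coe_subtype, Set.ofPred_mem_eq] at h1
  rw [h1, ← fnum_induce]
  refine beta_triv (G.induce B) (fun u => a u.1) (fun v x => hinv _ x) (fun u v h x => hcomm _ _ h x) ?_ i
  intro T t ht _
  refine ⟨sgn t.1, fun x => hs _ x, fun u hu x => ho _ _ ?_ x⟩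
  intro e
  exact ht (by rw [Subtype.ext e]; exact hu)

theorem beta_above {n : ℕ} {V M : Type} [Fintype V] [LinearOrder V] [AddCommGroup M] [Module ℝ M]
    {G : SimpleGraph V} (hS : Sph n G) (ρ : V → M →ₗ[ℝ] M) (i : ℕ) (hi : n < i) :
    beta G ρ Set.univ ∅ i = 0 := by
  have h1 : ZZ G ρ Set.univ ∅ i = ⊥ := by
    rw [eq_bot_iff]
    rintro c ⟨hc, _⟩
    rw [Submodule.mem_bot]
    funext T
    refine hc.1 T ?_
    rintro ⟨h2, _, h4⟩
    have h3 := no_big hS h2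
    omega
  unfold beta
  rw [h1, finrank_bot, Nat.zero_sub]

theorem alt_sum (m : ℕ) (b : ℕ → ℝ) (hsym : ∀ i j, i + j = 2 * m + 2 → b i = b j) :
    (-1 : ℝ) ^ (m + 1) * ∑ j ∈ Finset.range (2 * m + 3), (-1 : ℝ) ^ j * b j =
      b (m + 1) + 2 * ∑ k ∈ Finset.range (m + 1), (-1 : ℝ) ^ (k + 1) * b (m + 2 + k) := by
  have e : 2 * m + 3 = (m + 1) + (m + 2) := by ring
  have e0 : ∑ x ∈ Finset.range (m + 2), (-1 : ℝ) ^ (m + 1 + x) * b (m + 1 + x) =
      ∑ k ∈ Finset.range (m + 1), (-1 : ℝ) ^ (m + 1 + (k + 1)) * b (m + 1 + (k + 1)) +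
        (-1 : ℝ) ^ (m + 1 + 0) * b (m + 1 + 0) :=
    Finset.sum_range_succ' (fun x => (-1 : ℝ) ^ (m + 1 + x) * b (m + 1 + x)) (m + 1)
  rw [e, Finset.sum_range_add, e0, ← Finset.sum_range_reflect (fun j => (-1 : ℝ) ^ j * b j)]
  rw [mul_add, mul_add, Finset.mul_sum, Finset.mul_sum]
  have h1 : ∑ k ∈ Finset.range (m + 1), (-1 : ℝ) ^ (m + 1) * ((-1 : ℝ) ^ (m + 1 - 1 - k) * b (m + 1 - 1 - k)) =
      ∑ k ∈ Finset.range (m + 1), (-1 : ℝ) ^ (k + 1) * b (m + 2 + k) := by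
    refine Finset.sum_congr rfl fun k hk => ?_
    rw [Finset.mem_range] at hk
    rw [hsym (m + 1 - 1 - k) (m + 2 + k) (by omega), ← mul_assoc, ← pow_add]
    congr 1
    have e2 : m + 1 + (m + 1 - 1 - k) = 2 * (m - k) + (k + 1) := by omega
    rw [e2, pow_add, pow_mul]
    norm_num
  have h2 : ∑ k ∈ Finset.range (m + 1), (-1 : ℝ) ^ (m + 1) * ((-1 : ℝ) ^ (m + 1 + (k + 1)) * b (m + 1 + (k + 1))) =
      ∑ k ∈ Finset.range (m + 1), (-1 : ℝ) ^ (k + 1) * b (m + 2 + k) := by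
    refine Finset.sum_congr rfl fun k _ => ?_
    have e3 : m + 1 + (k + 1) = m + 2 + k := by ring
    rw [← mul_assoc, ← pow_add, e3]
    congr 1
    have e2 : m + 1 + (m + 2 + k) = 2 * (m + 1) + (k + 1) := by ring
    rw [e2, pow_add, pow_mul]
    norm_num
  have h3 : (-1 : ℝ) ^ (m + 1) * ((-1 : ℝ) ^ (m + 1 + 0) * b (m + 1 + 0)) = b (m + 1) := by
    rw [add_zero, ← mul_assoc, ← pow_add, ← two_mul, pow_mul]
    norm_num
  rw [h1, h2, h3]
  ring

/-- the Euler characteristic through the Betti numbers above the middle -/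
theorem euler_sgn {m : ℕ} {V X : Type} [Fintype V] [LinearOrder V] [Fintype X] {G : SimpleGraph V}
    (hS : HSph (2 * m + 2) G) (a : V → X → X) (sgn : V → X → Bool)
    (hinv : ∀ v x, a v (a v x) = x) (hcomm : ∀ u v, G.Adj u v → ∀ x, a u (a v x) = a v (a u x))
    (hs : ∀ v x, sgn v (a v x) = !(sgn v x)) (ho : ∀ u v, u ≠ v → ∀ x, sgn u (a v x) = sgn u x) :
    (-1 : ℝ) ^ (m + 1) * (Fintype.card X * (chiW G : ℝ)) = beta G (pull ℝ a) Set.univ ∅ (m + 1) +
      2 * ∑ k ∈ Finset.range (m + 1), (-1 : ℝ) ^ (k + 1) * beta G (pull ℝ a) Set.univ ∅ (m + 2 + k) := by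
  classical
  have h1 := Pool.Agent.W723.SM.beta_sum (two_ne_zero : (2 : ℝ) ≠ 0) G a sgn hinv hcomm hs ho
  have h2 := congrArg (fun q : ℚ => (q : ℝ)) h1
  push_cast at h2
  have h3 : ∑ j ∈ Finset.range (Fintype.card V + 1), (-1 : ℝ) ^ j * (beta G (pull ℝ a) Set.univ ∅ j : ℝ) =
      ∑ j ∈ Finset.range (2 * m + 3), (-1 : ℝ) ^ j * (beta G (pull ℝ a) Set.univ ∅ j : ℝ) := by
    have h4 : ∀ j, Fintype.card V < j → (-1 : ℝ) ^ j * (beta G (pull ℝ a) Set.univ ∅ j : ℝ) = 0 := by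
      intro j hj
      rw [beta_big G _ Set.univ ∅ hj, Nat.cast_zero, mul_zero]
    have h5 : ∀ j, 2 * m + 2 < j → (-1 : ℝ) ^ j * (beta G (pull ℝ a) Set.univ ∅ j : ℝ) = 0 := by
      intro j hj
      rw [beta_above hS _ j hj, Nat.cast_zero, mul_zero]
    rcases le_total (Fintype.card V + 1) (2 * m + 3) with h | h
    · refine Finset.sum_subset (Finset.range_subset_range.2 h) fun j _ hj => h4 j ?_
      rw [Finset.mem_range] at hj
      omega
    · refine (Finset.sum_subset (Finset.range_subset_range.2 h) fun j _ hj => h5 j ?_).symm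
      rw [Finset.mem_range] at hj
      omega
  rw [← h2, h3]
  refine alt_sum m (fun j => (beta G (pull ℝ a) Set.univ ∅ j : ℝ)) ?_
  intro i j hij
  rw [duality_sgn hS hinv hcomm hs ho hij]

/-- the Charney-Davis inequality with a defect -/
theorem cd_num {m : ℕ} {V : Type} [Fintype V] [LinearOrder V] {G : SimpleGraph V} (hS : HSph (2 * m + 2) G)
    {B : Set V} (hB : Core m G B) :
    - ∑ k ∈ (Finset.range (m + 1)).filter Even, 2 * ((fnum G B (m + 2 + k) : ℝ) / 2 ^ (m + 2 + k)) ≤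
      (-1 : ℝ) ^ (m + 1) * (chiW G : ℝ) := by
  classical
  refine le_of_forall_pos_le_add fun ε hε => ?_
  obtain ⟨N, hN⟩ := exists_nat_gt (2 * ((m : ℝ) + 1) / ε)
  have hN0 : (0 : ℝ) < N := lt_of_le_of_lt (by positivity) hN
  have hNε : 2 * ((m : ℝ) + 1) < N * ε := (div_lt_iff₀ hε).1 hN
  -- the peeling condition
  have hpeel : ∀ j, m < j → ∀ D : Set V, ¬ D ⊆ B → ∃ v ∈ D, v ∉ B ∧ LV (G.induce (D ∩ G.neighborSet v)) j := by
    intro j hj D hD
    obtain ⟨v, hv, hvB, hAR⟩ := hB (Set.toFinite D).toFinset (by rwa [Set.Finite.coe_toFinset])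
    rw [Set.Finite.mem_toFinset] at hv
    rw [Set.Finite.coe_toFinset] at hAR
    exact ⟨v, hv, hvB, LV_of_AR hAR j hj⟩
  have h1 : ∀ k : ℕ, ∃ Ek : Finset (W G), (1 : W G) ∉ Ek ∧ ∀ (X : Type) [Fintype X] (a : V → X → X)
      (ev : X → W G → X), Okk G Ek a ev →
        N * beta G (pull ℝ a) Set.univ ∅ (m + 2 + k) ≤
          N * beta G (pull ℝ a) B ∅ (m + 2 + k) + Fintype.card X := by
    intro k
    obtain ⟨E, h2, h3⟩ := peelN G (m + 1 + k) B (hpeel _ (by omega)) _ Set.univ rfl N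
    have e : m + 1 + k + 1 = m + 2 + k := by ring
    rw [e, Set.univ_inter] at h3
    exact ⟨E, h2, h3⟩
  choose Ef hEf1 hEf2 using h1
  have : Fact (Nat.Prime 3) := ⟨Nat.prime_three⟩
  obtain ⟨Y, fY, nY, P, ev, e1, e2, e3, e4⟩ := nilp 3 V G ((Finset.range (m + 1)).biUnion Ef) (by norm_num) (by
    rw [Finset.mem_biUnion]
    rintro ⟨i, _, h⟩
    exact hEf1 i h)
  have hY : (0 : ℝ) < Fintype.card Y := by exact_mod_cast Fintype.card_pos
  have h5 := euler_sgn hS P.a P.sgn P.inv P.comm P.sgn_self P.sgn_other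
  have h6 : ∀ k ∈ Finset.range (m + 1), (beta G (pull ℝ P.a) Set.univ ∅ (m + 2 + k) : ℝ) ≤
      ((fnum G B (m + 2 + k) : ℝ) / 2 ^ (m + 2 + k) + 1 / N) * Fintype.card Y := by
    intro k hk
    have h7 := hEf2 k Y P.a ev ⟨P.inv, P.comm, e1, e2, e3, fun g hg => e4 g (Finset.mem_biUnion.2 ⟨k, hk, hg⟩)⟩
    have h8 := beta_triv_sgn G B P.a P.sgn P.inv P.comm P.sgn_self P.sgn_other (m + 2 + k)
    have h7' : (N : ℝ) * beta G (pull ℝ P.a) Set.univ ∅ (m + 2 + k) ≤
      N * beta G (pull ℝ P.a) B ∅ (m + 2 + k) + Fintype.card Y := by exact_mod_cast h7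
    have h8' : (beta G (pull ℝ P.a) B ∅ (m + 2 + k) : ℝ) * 2 ^ (m + 2 + k) ≤
      fnum G B (m + 2 + k) * Fintype.card Y := by exact_mod_cast h8
    have h9 : (beta G (pull ℝ P.a) B ∅ (m + 2 + k) : ℝ) ≤
        (fnum G B (m + 2 + k) : ℝ) / 2 ^ (m + 2 + k) * Fintype.card Y := by
      rw [div_mul_eq_mul_div, le_div_iff₀ (by positivity)]
      exact h8'
    have h10 : (N : ℝ) * beta G (pull ℝ P.a) Set.univ ∅ (m + 2 + k) ≤
        N * (((fnum G B (m + 2 + k) : ℝ) / 2 ^ (m + 2 + k) + 1 / N) * Fintype.card Y) := by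
      have h11 : (N : ℝ) * (((fnum G B (m + 2 + k) : ℝ) / 2 ^ (m + 2 + k) + 1 / N) * Fintype.card Y) =
          N * ((fnum G B (m + 2 + k) : ℝ) / 2 ^ (m + 2 + k) * Fintype.card Y) + Fintype.card Y := by
        field_simp
      rw [h11]
      have h12 := mul_le_mul_of_nonneg_left h9 hN0.le
      linarith
    exact le_of_mul_le_mul_left h10 hN0
  -- the sum
  have h7 : - ∑ k ∈ (Finset.range (m + 1)).filter Even, (beta G (pull ℝ P.a) Set.univ ∅ (m + 2 + k) : ℝ) ≤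
      ∑ k ∈ Finset.range (m + 1), (-1 : ℝ) ^ (k + 1) * beta G (pull ℝ P.a) Set.univ ∅ (m + 2 + k) := by
    rw [← Finset.sum_neg_distrib, Finset.sum_filter]
    refine Finset.sum_le_sum fun k _ => ?_
    have h8 : (0 : ℝ) ≤ beta G (pull ℝ P.a) Set.univ ∅ (m + 2 + k) := Nat.cast_nonneg _
    by_cases hk : Even k
    · rw [if_pos hk, pow_succ, hk.neg_one_pow]
      linarith
    · rw [if_neg hk, pow_succ, (Nat.not_even_iff_odd.1 hk).neg_one_pow]
      linarith
  have h8 : ∑ k ∈ (Finset.range (m + 1)).filter Even, (beta G (pull ℝ P.a) Set.univ ∅ (m + 2 + k) : ℝ) ≤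
      (∑ k ∈ (Finset.range (m + 1)).filter Even, (fnum G B (m + 2 + k) : ℝ) / 2 ^ (m + 2 + k) +
        (m + 1) * (1 / N)) * Fintype.card Y := by
    calc ∑ k ∈ (Finset.range (m + 1)).filter Even, (beta G (pull ℝ P.a) Set.univ ∅ (m + 2 + k) : ℝ)
        ≤ ∑ k ∈ (Finset.range (m + 1)).filter Even,
          ((fnum G B (m + 2 + k) : ℝ) / 2 ^ (m + 2 + k) + 1 / N) * Fintype.card Y :=
          Finset.sum_le_sum fun k hk => h6 k (Finset.mem_filter.1 hk).1
      _ = (∑ k ∈ (Finset.range (m + 1)).filter Even, (fnum G B (m + 2 + k) : ℝ) / 2 ^ (m + 2 + k) +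
          ((Finset.range (m + 1)).filter Even).card * (1 / N)) * Fintype.card Y := by
          rw [← Finset.sum_mul, Finset.sum_add_distrib, Finset.sum_const, nsmul_eq_mul]
      _ ≤ _ := by
          refine mul_le_mul_of_nonneg_right ?_ hY.le
          refine add_le_add le_rfl (mul_le_mul_of_nonneg_right ?_ (by positivity))
          have h9 := Finset.card_filter_le (Finset.range (m + 1)) Even
          rw [Finset.card_range] at h9
          exact_mod_cast h9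
  have h9 : (0 : ℝ) ≤ beta G (pull ℝ P.a) Set.univ ∅ (m + 1) := Nat.cast_nonneg _
  have h10 : 2 * ((m + 1) * (1 / (N : ℝ))) ≤ ε := by
    have h11 : 2 * ((m + 1) * (1 / (N : ℝ))) = 2 * ((m : ℝ) + 1) / N := by ring
    rw [h11, div_le_iff₀ hN0]
    linarith
  have h11 : - ((∑ k ∈ (Finset.range (m + 1)).filter Even, 2 * ((fnum G B (m + 2 + k) : ℝ) / 2 ^ (m + 2 + k)) + ε)) *
      Fintype.card Y ≤ ((-1 : ℝ) ^ (m + 1) * (chiW G : ℝ)) * Fintype.card Y := by
    have h12 : ((-1 : ℝ) ^ (m + 1) * (chiW G : ℝ)) * Fintype.card Y =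
        (-1 : ℝ) ^ (m + 1) * (Fintype.card Y * (chiW G : ℝ)) := by ring
    rw [h12, h5, ← Finset.mul_sum]
    have h13 : 2 * ((m + 1) * (1 / (N : ℝ))) * Fintype.card Y ≤ ε * Fintype.card Y :=
      mul_le_mul_of_nonneg_right h10 hY.le
    nlinarith
  have h12 := le_of_mul_le_mul_right h11 hY
  linarith

end Pool.Agent.Q24.SG
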