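import Pool.Agent.Q24.SG.Num3

/-!
# Betti numbers above the middle: counting cliques with a bad maximum
-/

set_option autoImplicit false

namespace Pool.Agent.Q24.SG

open Module Pool.Agent.W907.SG Pool.Agent.W907.SM Pool.Agent.TH652.Above Pool.Agent.Q68.DO Pool.Agent.Y132.SI
  Pool.Agent.W461.SGN Pool.Agent.W397.SG Pool.Agent.TH652.Dual

open Classical in
/-- the chains as a product -/
theorem KK_dimA {V X F : Type} [Field F] [Fintype V] [Fintype X] [LinearOrder V] (G : SimpleGraph V)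
    (A : Set V) (a : V → X → X)
    (i : ℕ) : finrank F (KK G (pull F a) A ∅ i) =
      ∑ T : Finset V, if G.IsClique (T : Set V) ∧ (T : Set V) ⊆ A ∧ T.card = i then finrank F (ET F a T) else 0 := by
  obtain ⟨p, hp⟩ : ∃ p : Finset V → Submodule F (X → F), p = fun T : Finset V =>
    if G.IsClique (T : Set V) ∧ (T : Set V) ⊆ A ∧ T.card = i then ET F a T else ⊥ := ⟨_, rfl⟩
  have hmem : ∀ c : Finset V → (X → F), c ∈ KK G (pull F a) A ∅ i ↔ ∀ T, c T ∈ p T := by
    intro c
    rw [mem_KK]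
    constructor
    · rintro ⟨h1, h2⟩ T
      rw [hp]
      simp only []
      split_ifs with h
      · intro t ht x
        have := h2 T t (Or.inl ht)
        exact congrFun this x
      · rw [Submodule.mem_bot]
        exact h1 T h
    · intro h
      refine ⟨fun T hT => ?_, fun T t ht => ?_⟩
      · have h3 := h T
        rw [hp] at h3
        simp only [] at h3
        rw [if_neg hT] at h3
        exact h3
      · have h3 := h T
        rw [hp] at h3
        simp only [] at h3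
        have ht' : t ∈ T := by
          rcases ht with ht | ht
          · exact ht
          · exact absurd ht (Set.notMem_empty t)
        split_ifs at h3 with h4
        · funext x
          exact h3 t ht' x
        · have h5 : c T = 0 := h3
          rw [h5, map_zero, neg_zero]
  have e : KK G (pull F a) A ∅ i ≃ₗ[F] (∀ T : Finset V, p T) :=
    { toFun := fun c T => ⟨c.1 T, (hmem c.1).1 c.2 T⟩
      map_add' := fun _ _ => rfl
      map_smul' := fun _ _ => rfl
      invFun := fun g => ⟨fun T => (g T).1, (hmem _).2 fun T => (g T).2⟩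
      left_inv := fun _ => rfl
      right_inv := fun _ => rfl }
  rw [e.finrank_eq, Module.finrank_pi_fintype]
  refine Finset.sum_congr rfl fun T _ => ?_
  by_cases h : G.IsClique (T : Set V) ∧ (T : Set V) ⊆ A ∧ T.card = i
  · have h1 : p T = ET F a T := by rw [hp]; exact if_pos h
    rw [h1, if_pos h]
  · have h1 : p T = ⊥ := by rw [hp]; exact if_neg h
    rw [h1, if_neg h, finrank_bot]

theorem kk_count {V X : Type} [Fintype V] [LinearOrder V] [Fintype X] (G : SimpleGraph V) (A : Set V)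
    (a : V → X → X)
    (hinv : ∀ v x, a v (a v x) = x) (hcomm : ∀ u v, G.Adj u v → ∀ x, a u (a v x) = a v (a u x))
    (hσ : ∀ (T : Finset V) (t : V), t ∉ T → G.IsClique ((insert t T : Finset V) : Set V) →
      ∃ σ : X → Bool, (∀ x, σ (a t x) = !(σ x)) ∧ ∀ u ∈ T, ∀ x, σ (a u x) = σ x) (i : ℕ) :
    finrank ℝ (KK G (pull ℝ a) A ∅ i) * 2 ^ i = fnum G A i * Fintype.card X := by
  classical
  have hf : fnum G A i = ((Finset.univ : Finset (Finset V)).filter
      (fun T : Finset V => G.IsClique (T : Set V) ∧ (T : Set V) ⊆ A ∧ T.card = i)).card := by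
    rw [fnum, ← Set.ncard_coe_finset]
    congr 1
    ext T
    simp
  rw [KK_dimA, Finset.sum_mul, hf, Finset.card_eq_sum_ones, Finset.sum_mul, Finset.sum_filter]
  refine Finset.sum_congr rfl fun T _ => ?_
  by_cases hT : G.IsClique (T : Set V) ∧ (T : Set V) ⊆ A ∧ T.card = i
  · rw [if_pos hT, if_pos hT, one_mul]
    have h3 := ET_dim' (two_ne_zero : (2 : ℝ) ≠ 0) G a hinv hcomm (fun T t h1 h2 => by
      refine hσ T t h1 ?_
      convert h2) T hT.1
    rw [hT.2.2] at h3
    exact h3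
  · rw [if_neg hT, if_neg hT, zero_mul]

theorem KK_mono {V M : Type} [AddCommGroup M] [Module ℝ M] (G : SimpleGraph V) (ρ : V → M →ₗ[ℝ] M) {D D' : Set V}
    (h : D ⊆ D') (i : ℕ) : KK G ρ D ∅ i ≤ KK G ρ D' ∅ i := by
  rintro c ⟨h1, h2⟩
  exact ⟨fun T hT => h1 T fun h3 => hT ⟨h3.1, h3.2.1.trans h, h3.2.2⟩, h2⟩

/-- the new cells are paid for in full -/
theorem beta_pay {V M : Type} [Fintype V] [LinearOrder V] [AddCommGroup M] [Module ℝ M] [FiniteDimensional ℝ M]
    (G : SimpleGraph V) (ρ : V → M →ₗ[ℝ] M) {D D' : Set V} (h : D ⊆ D') (i : ℕ) :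
    beta G ρ D' ∅ i + finrank ℝ (KK G ρ D ∅ i) ≤ beta G ρ D ∅ i + finrank ℝ (KK G ρ D' ∅ i) := by
  have h1 : ZZ G ρ D' ∅ i ⊓ KK G ρ D ∅ i = ZZ G ρ D ∅ i := by
    ext c
    constructor
    · rintro ⟨⟨_, hc⟩, hc2⟩
      exact ⟨hc2, hc⟩
    · rintro ⟨hc1, hc2⟩
      exact ⟨⟨KK_mono G ρ h i hc1, hc2⟩, hc1⟩
  have h2 := Submodule.finrank_sup_add_finrank_inf_eq (ZZ G ρ D' ∅ i) (KK G ρ D ∅ i)
  rw [h1] at h2
  have h3 : finrank ℝ ((ZZ G ρ D' ∅ i ⊔ KK G ρ D ∅ i : Submodule ℝ (Finset V → M))) ≤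
      finrank ℝ (KK G ρ D' ∅ i) :=
    Submodule.finrank_mono (sup_le inf_le_left (KK_mono G ρ h i))
  have h4 : finrank ℝ (BB G ρ D ∅ i) ≤ finrank ℝ (BB G ρ D' ∅ i) :=
    Submodule.finrank_mono (Submodule.map_mono (KK_mono G ρ h (i + 1)))
  have h5 : finrank ℝ (BB G ρ D' ∅ i) ≤ finrank ℝ (ZZ G ρ D' ∅ i) :=
    Submodule.finrank_mono (BB_le_ZZ G ρ D' ∅ i)
  have h6 : finrank ℝ (BB G ρ D ∅ i) ≤ finrank ℝ (ZZ G ρ D ∅ i) :=
    Submodule.finrank_mono (BB_le_ZZ G ρ D ∅ i)
  unfold beta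
  omega

/-- the number of the cliques with `i` elements in `D` whose maximum is in `Q` -/
noncomputable def pnum {V : Type} [LE V] (G : SimpleGraph V) (Q : Set V) (D : Set V) (i : ℕ) : ℕ :=
  {T : Finset V | G.IsClique (T : Set V) ∧ (T : Set V) ⊆ D ∧ T.card = i ∧ ∃ v ∈ T, v ∈ Q ∧ ∀ u ∈ T, u ≤ v}.ncard

theorem pnum_mono {V : Type} [Fintype V] [LE V] (G : SimpleGraph V) (Q : Set V) {D D' : Set V} (h : D ⊆ D')
    (i : ℕ) : pnum G Q D i ≤ pnum G Q D' i := by
  refine Set.ncard_le_ncard ?_ (Set.toFinite _)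
  rintro T ⟨h1, h2, h3⟩
  exact ⟨h1, h2.trans h, h3⟩

theorem pnum_insert {V : Type} [Fintype V] [LinearOrder V] (G : SimpleGraph V) (Q : Set V) {D : Set V} {v : V}
    (hv : v ∉ D) (hmax : ∀ u ∈ D, u ≤ v) (hQ : v ∈ Q) (i : ℕ) :
    pnum G Q (insert v D) i + fnum G D i = pnum G Q D i + fnum G (insert v D) i := by
  classical
  set N : Set (Finset V) := {T : Finset V | G.IsClique (T : Set V) ∧ (T : Set V) ⊆ insert v D ∧ T.card = i ∧ v ∈ T}
    with hN
  have hsub : ∀ T : Finset V, v ∉ T → (T : Set V) ⊆ insert v D → (T : Set V) ⊆ D := by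
    intro T hT h x hx
    rcases h hx with h1 | h1
    · exact absurd (h1 ▸ hx) hT
    · exact h1
  have h1 : pnum G Q (insert v D) i = pnum G Q D i + N.ncard := by
    unfold pnum
    rw [← Set.ncard_union_eq _ (Set.toFinite _) (Set.toFinite _)]
    · congr 1
      ext T
      constructor
      · rintro ⟨k1, k2, k3, k4⟩
        by_cases hT : v ∈ T
        · exact Or.inr ⟨k1, k2, k3, hT⟩
        · exact Or.inl ⟨k1, hsub T hT k2, k3, k4⟩
      · rintro (⟨k1, k2, k3, k4⟩ | ⟨k1, k2, k3, k4⟩)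
        · exact ⟨k1, k2.trans (Set.subset_insert _ _), k3, k4⟩
        · refine ⟨k1, k2, k3, v, k4, hQ, fun u hu => ?_⟩
          rcases k2 hu with h1 | h1
          · exact le_of_eq h1
          · exact hmax u h1
    · rw [Set.disjoint_left]
      rintro T ⟨_, k2, _⟩ ⟨_, _, _, k4⟩
      exact hv (k2 k4)
  have h2 : fnum G (insert v D) i = fnum G D i + N.ncard := by
    unfold fnum
    rw [← Set.ncard_union_eq _ (Set.toFinite _) (Set.toFinite _)]
    · congr 1
      ext T
      constructor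
      · rintro ⟨k1, k2, k3⟩
        by_cases hT : v ∈ T
        · exact Or.inr ⟨k1, k2, k3, hT⟩
        · exact Or.inl ⟨k1, hsub T hT k2, k3⟩
      · rintro (⟨k1, k2, k3⟩ | ⟨k1, k2, k3, k4⟩)
        · exact ⟨k1, k2.trans (Set.subset_insert _ _), k3⟩
        · exact ⟨k1, k2, k3⟩
    · rw [Set.disjoint_left]
      rintro T ⟨_, k2, _⟩ ⟨_, _, _, k4⟩
      exact hv (k2 k4)
  omega

/-- the main induction -/
theorem pay {V : Type} [Fintype V] [LinearOrder V] (G : SimpleGraph V) (S Q : Set V) (j : ℕ)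
    (hS : ∀ a ∈ S, ∀ b, b ≤ a → b ∈ S) (hSL : ∀ D ⊆ S, LV (G.induce D) (j + 1))
    (hQ : ∀ v, v ∉ S → v ∉ Q → ∀ D ⊆ {u | u < v ∧ G.Adj v u}, LV (G.induce D) j) :
    ∀ (k : ℕ) (D : Set V), D.ncard = k → (∀ a ∈ D, ∀ b, b ≤ a → b ∈ D) → ∀ ε : ℝ, 0 < ε →
      ∃ E : Finset (W G), (1 : W G) ∉ E ∧ ∀ (X : Type) [Fintype X] (a : V → X → X) (ev : X → W G → X),
        Okk G E a ev → (beta G (pull ℝ a) D ∅ (j + 1) : ℝ) ≤
          ((pnum G Q D (j + 1) : ℝ) / 2 ^ (j + 1) + ε) * Fintype.card X := by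
  classical
  obtain ⟨E0, hE01, hE02⟩ := exists_tor G
  have hsmall : ∀ (D : Set V) (i : ℕ), LV (G.induce D) i → ∀ ε : ℝ, 0 < ε →
      ∃ E : Finset (W G), (1 : W G) ∉ E ∧ ∀ (X : Type) [Fintype X] (a : V → X → X) (ev : X → W G → X),
        Okk G E a ev → (beta G (pull ℝ a) D ∅ i : ℝ) ≤ ε * Fintype.card X := by
    intro D i hL ε hε
    obtain ⟨N, hN⟩ := exists_nat_gt (1 / ε)
    have hN0 : (0 : ℝ) < N := lt_of_le_of_lt (by positivity) hN
    have hNε : 1 < N * ε := (div_lt_iff₀ hε).1 hN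
    obtain ⟨E, h1, h2⟩ := small_on G D i hL N
    refine ⟨E, h1, fun X _ a ev hOk => ?_⟩
    have h3 : (N : ℝ) * beta G (pull ℝ a) D ∅ i ≤ Fintype.card X := by exact_mod_cast h2 X a ev hOk
    have h4 : (0 : ℝ) ≤ Fintype.card X := Nat.cast_nonneg _
    have h5 : (N : ℝ) * beta G (pull ℝ a) D ∅ i ≤ N * (ε * Fintype.card X) := by nlinarith
    exact le_of_mul_le_mul_left h5 hN0
  intro k
  induction k with
  | zero =>
    intro D hD _ ε hε
    rw [Set.ncard_eq_zero] at hD
    subst hD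
    obtain ⟨E, h1, h2⟩ := hsmall ∅ (j + 1) (hSL ∅ (Set.empty_subset _)) ε hε
    refine ⟨E, h1, fun X _ a ev hOk => (h2 X a ev hOk).trans ?_⟩
    refine mul_le_mul_of_nonneg_right ?_ (Nat.cast_nonneg _)
    have : (0 : ℝ) ≤ (pnum G Q ∅ (j + 1) : ℝ) / 2 ^ (j + 1) := by positivity
    linarith
  | succ k ih =>
    intro D hD hlow ε hε
    by_cases hDS : D ⊆ S
    · obtain ⟨E, h1, h2⟩ := hsmall D (j + 1) (hSL D hDS) ε hε
      refine ⟨E, h1, fun X _ a ev hOk => (h2 X a ev hOk).trans ?_⟩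
      refine mul_le_mul_of_nonneg_right ?_ (Nat.cast_nonneg _)
      have : (0 : ℝ) ≤ (pnum G Q D (j + 1) : ℝ) / 2 ^ (j + 1) := by positivity
      linarith
    · obtain ⟨v, hv, hvmax⟩ : ∃ v ∈ D, ∀ u ∈ D, u ≤ v := by
        have hne : D.Nonempty := by
          rw [← Set.ncard_pos]; omega
        obtain ⟨v, hv, hmax⟩ := Set.exists_max_image D id (Set.toFinite _) hne
        exact ⟨v, hv, hmax⟩
      have hvS : v ∉ S := fun h => hDS fun u hu => hS v h u (hvmax u hu)
      have hD0 : (D \ {v}).ncard = k := by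
        have h2 := Set.ncard_sdiff_singleton_add_one hv (Set.toFinite D)
        omega
      have hlow0 : ∀ a ∈ D \ {v}, ∀ b, b ≤ a → b ∈ D \ {v} := by
        rintro a ⟨ha, hav⟩ b hb
        refine ⟨hlow a ha b hb, fun hbv => hav ?_⟩
        rw [Set.mem_singleton_iff] at hbv ⊢
        rw [hbv] at hb
        exact le_antisymm (hvmax a ha) hb
      have hins : insert v (D \ {v}) = D := by
        rw [Set.insert_sdiff_singleton, Set.insert_eq_of_mem hv]
      by_cases hvQ : v ∈ Q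
      · obtain ⟨E, h1, h2⟩ := ih (D \ {v}) hD0 hlow0 ε hε
        refine ⟨E ∪ E0, by rw [Finset.mem_union]; exact fun h => h.elim h1 hE01, fun X _ a ev hOk => ?_⟩
        have hσ : ∀ (T : Finset V) (t : V), t ∉ T → G.IsClique ((insert t T : Finset V) : Set V) →
            ∃ σ : X → Bool, (∀ x, σ (a t x) = !(σ x)) ∧ ∀ u ∈ T, ∀ x, σ (a u x) = σ x :=
          fun T t ht hc => exists_sigma G a ev hOk.2.2.1 hOk.2.2.2.1 hOk.2.2.2.2.1
            (fun T hT g hg hg1 x => hOk.2.2.2.2.2 g (Finset.mem_union_right _ (hE02 T hT g hg hg1)) x) T t ht hc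
        have h3 := h2 X a ev (hOk.mono Finset.subset_union_left)
        have h4 := beta_pay G (pull ℝ a) (Set.sdiff_subset : D \ {v} ⊆ D) (j + 1)
        have h5 := kk_count G (D \ {v}) a hOk.1 hOk.2.1 hσ (j + 1)
        have h6 := kk_count G D a hOk.1 hOk.2.1 hσ (j + 1)
        have h7 := pnum_insert G Q (D := D \ {v}) (v := v) (by simp) (fun u hu => hvmax u hu.1) hvQ (j + 1)
        rw [hins] at h7
        have h4' : (beta G (pull ℝ a) D ∅ (j + 1) : ℝ) + finrank ℝ (KK G (pull ℝ a) (D \ {v}) ∅ (j + 1)) ≤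
          beta G (pull ℝ a) (D \ {v}) ∅ (j + 1) + finrank ℝ (KK G (pull ℝ a) D ∅ (j + 1)) := by exact_mod_cast h4
        have h5' : (finrank ℝ (KK G (pull ℝ a) (D \ {v}) ∅ (j + 1)) : ℝ) * 2 ^ (j + 1) =
          fnum G (D \ {v}) (j + 1) * Fintype.card X := by exact_mod_cast h5
        have h6' : (finrank ℝ (KK G (pull ℝ a) D ∅ (j + 1)) : ℝ) * 2 ^ (j + 1) =
          fnum G D (j + 1) * Fintype.card X := by exact_mod_cast h6
        have h7' : (pnum G Q D (j + 1) : ℝ) + fnum G (D \ {v}) (j + 1) =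
          pnum G Q (D \ {v}) (j + 1) + fnum G D (j + 1) := by exact_mod_cast h7
        have h8 : (finrank ℝ (KK G (pull ℝ a) (D \ {v}) ∅ (j + 1)) : ℝ) =
            (fnum G (D \ {v}) (j + 1) : ℝ) / 2 ^ (j + 1) * Fintype.card X := by
          rw [div_mul_eq_mul_div, eq_div_iff (by positivity)]
          exact h5'
        have h9 : (finrank ℝ (KK G (pull ℝ a) D ∅ (j + 1)) : ℝ) =
            (fnum G D (j + 1) : ℝ) / 2 ^ (j + 1) * Fintype.card X := by
          rw [div_mul_eq_mul_div, eq_div_iff (by positivity)]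
          exact h6'
        have h10 : (pnum G Q D (j + 1) : ℝ) / 2 ^ (j + 1) = (pnum G Q (D \ {v}) (j + 1) : ℝ) / 2 ^ (j + 1) +
            (fnum G D (j + 1) : ℝ) / 2 ^ (j + 1) - (fnum G (D \ {v}) (j + 1) : ℝ) / 2 ^ (j + 1) := by
          rw [← add_div, ← sub_div]
          congr 1
          linarith
        rw [h8, h9] at h4'
        rw [h10]
        nlinarith
      · obtain ⟨E1, hE1, hX1⟩ := ih (D \ {v}) hD0 hlow0 (ε / 2) (by positivity)
        obtain ⟨E2, hE2, hX2⟩ := hsmall ((D \ {v}) ∩ G.neighborSet v) j (hQ v hvS hvQ _ (by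
          rintro u ⟨⟨hu1, hu2⟩, hu3⟩
          exact ⟨lt_of_le_of_ne (hvmax u hu1) hu2, hu3⟩)) (ε / 2) (by positivity)
        refine ⟨E1 ∪ E2, by rw [Finset.mem_union]; exact fun h => h.elim hE1 hE2, fun X _ a ev hOk => ?_⟩
        have b1 := (vert V ℝ (X → ℝ) G (pull ℝ a) (D \ {v}) ∅ v (by simp) (by simp)).2 j
        rw [hins] at b1
        have b2 := eig V ℝ (X → ℝ) G (pull ℝ a) ((D \ {v}) ∩ G.neighborSet v) ∅ v (by norm_num)
          (fun m => by
            funext x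
            rw [pull_apply, pull_apply, hOk.1])
          (fun u hu m => by
            have hu' : G.Adj u v := by
              rcases hu with hu | hu
              · exact ((G.mem_neighborSet v u).1 hu.2).symm
              · exact absurd hu (by simp)
            funext x
            rw [pull_apply, pull_apply, pull_apply, pull_apply, hOk.2.1 u v hu']) j
        have h3 := hX1 X a ev (hOk.mono Finset.subset_union_left)
        have h4 := hX2 X a ev (hOk.mono Finset.subset_union_right)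
        have h5 : (beta G (pull ℝ a) D ∅ (j + 1) : ℝ) ≤ beta G (pull ℝ a) (D \ {v}) ∅ (j + 1) +
            beta G (pull ℝ a) ((D \ {v}) ∩ G.neighborSet v) ∅ j := by
          exact_mod_cast b1.trans (Nat.add_le_add_left b2 _)
        have h6 : (pnum G Q (D \ {v}) (j + 1) : ℝ) / 2 ^ (j + 1) ≤ (pnum G Q D (j + 1) : ℝ) / 2 ^ (j + 1) := by
          refine div_le_div_of_nonneg_right ?_ (by positivity)
          exact_mod_cast pnum_mono G Q Set.sdiff_subset (j + 1)
        have h7 := mul_le_mul_of_nonneg_right h6 (Nat.cast_nonneg (α := ℝ) (Fintype.card X))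
        nlinarith

end Pool.Agent.Q24.SG
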