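import Pool.Agent.Q24.SG.Num4

/-!
# Counting cliques with a bad maximum: subgroups of finite index, and the Euler characteristic
-/

set_option autoImplicit false

namespace Pool.Agent.Q24.SG

open Module Pool.Agent.W907.SG Pool.Agent.W907.SM Pool.Agent.TH652.Above Pool.Agent.Q68.DO Pool.Agent.Y132.SI
  Pool.Agent.W461.SGN Pool.Agent.W397.SG Pool.Agent.TH652.Dual

/-- the hypotheses: vanishing above `m + 1` over `S`, and above `m` for the lower links of the vertices outside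
`S ∪ Q` -/
structure Hyp {V : Type} [LinearOrder V] (m : ℕ) (G : SimpleGraph V) (S Q : Set V) : Prop where
  low : ∀ a ∈ S, ∀ b, b ≤ a → b ∈ S
  base : ∀ D : Set V, D.Finite → D ⊆ S → ∀ i, m + 1 < i → LV (G.induce D) i
  link : ∀ v, v ∉ S → v ∉ Q → ∀ D : Set V, D.Finite → D ⊆ {u | u < v ∧ G.Adj v u} → ∀ i, m < i →
    LV (G.induce D) i

theorem Hyp.sub {V : Type} [LinearOrder V] {m : ℕ} {G : SimpleGraph V} {S Q : Set V} (h : Hyp m G S Q)
    (A : Finset V) : Hyp m (G.induce (A : Set V)) {x | x.1 ∈ S} {x | x.1 ∈ Q} := by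
  refine ⟨fun a ha b hb => h.low a.1 ha b.1 hb, fun D hD hDS i hi => ?_, fun v hv hvQ D hD hDv i hi => ?_⟩
  · rw [lv_sub]
    refine h.base _ (hD.image _) ?_ i hi
    rintro _ ⟨x, hx, rfl⟩
    exact hDS hx
  · rw [lv_sub]
    refine h.link v.1 hv hvQ _ (hD.image _) ?_ i hi
    rintro _ ⟨x, hx, rfl⟩
    obtain ⟨h1, h2⟩ := hDv hx
    exact ⟨h1, h2⟩

theorem pnum_sub {V : Type} [LinearOrder V] (G : SimpleGraph V) (Q : Set V) (A : Finset V) (i : ℕ) :
    pnum (G.induce (A : Set V)) {x | x.1 ∈ Q} Set.univ i = pnum G Q A i := by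
  classical
  unfold pnum
  rw [← Set.ncard_image_of_injective _ (up_inj (A := A))]
  congr 1
  ext T
  constructor
  · rintro ⟨T', hT', rfl⟩
    refine ⟨(up_clique G T').2 hT'.1, fun x hx => up_sub T' hx, by rw [up_card]; exact hT'.2.2.1, ?_⟩
    obtain ⟨v, hv, hvQ, hmax⟩ := hT'.2.2.2
    refine ⟨v.1, mem_up_val.2 hv, hvQ, fun u hu => ?_⟩
    obtain ⟨hu1, hu2⟩ := mem_up.1 hu
    exact hmax _ hu2
  · rintro ⟨k1, k2, k3, v, hv, hvQ, hmax⟩
    have k4 : T ⊆ A := fun x hx => k2 hx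
    refine ⟨dn A T, ⟨?_, Set.subset_univ _, ?_, ⟨v, k2 hv⟩, mem_dn.2 hv, hvQ, fun u hu => ?_⟩, up_dn k4⟩
    · rw [← up_clique, up_dn k4]; exact k1
    · rw [← up_card, up_dn k4]; exact k3
    · exact hmax u.1 (mem_dn.1 hu)

/-- one degree -/
theorem pay_one {V : Type} [LinearOrder V] {m : ℕ} {G : SimpleGraph V} {S Q : Set V} (h : Hyp m G S Q)
    (A : Finset V) (j : ℕ) (hj : m < j) (ε : ℝ) (hε : 0 < ε) :
    ∃ E : Finset (W G), (1 : W G) ∉ E ∧ ∀ H : Subgroup (W G), H.FiniteIndex →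
      (∀ g ∈ E, ∀ x : W G, x * g * x⁻¹ ∉ H) →
        (finrank ℝ (HInvOn G A H (j + 1)) : ℝ) ≤ ((pnum G Q A (j + 1) : ℝ) / 2 ^ (j + 1) + ε) * H.index := by
  classical
  let _ : Fintype ↥(A : Set V) := Fintype.ofFinite _
  have hs := h.sub A
  obtain ⟨E, h1, h2⟩ := pay (G.induce (A : Set V)) {x | x.1 ∈ S} {x | x.1 ∈ Q} j hs.low
    (fun D hD => hs.base D (Set.toFinite _) hD (j + 1) (by omega))
    (fun v hv hvQ D hD => hs.link v hv hvQ D (Set.toFinite _) hD j hj) _ Set.univ rfl (fun _ _ _ _ => trivial) ε hε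
  refine ⟨E.image (emb G (A : Set V)), ?_, fun H hfin hE => ?_⟩
  · rw [Finset.mem_image]
    rintro ⟨x, hx, hx1⟩
    rw [← map_one (emb G (A : Set V))] at hx1
    exact h1 (emb_inj G (A : Set V) hx1 ▸ hx)
  have : Finite (Quotient (QuotientGroup.rightRel H)) :=
    Finite.of_equiv _ (QuotientGroup.quotientRightRelEquivQuotientLeftRel H).symm
  let _ : Fintype (Quotient (QuotientGroup.rightRel H)) := Fintype.ofFinite _
  have h4 := h2 _ (fun (v : ↥(A : Set V)) x => aa G H v.1 x) (fun x g => ev G H x (emb G (A : Set V) g))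
    ⟨fun v x => aa_inv G H v.1 x, fun u v h x => aa_comm G H u.1 v.1 h x,
      fun x => by show ev G H x (emb G (A : Set V) 1) = x; rw [map_one]; exact ev_one G H x,
      fun x g h => by
        show ev G H x (emb G (A : Set V) (g * h)) = _
        rw [map_mul]
        exact ev_mul G H x _ _,
      fun x v => by
        show ev G H x (emb G (A : Set V) _) = _
        rw [emb_simple]
        rfl,
      fun g hg x => ev_free G H (fun y => hE _ (Finset.mem_image_of_mem _ hg) y) x⟩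
  rw [card_quot, ← finrank_HInvOn, pnum_sub] at h4
  exact h4

/-- all degrees above the middle -/
theorem pay_above {V : Type} [LinearOrder V] {m : ℕ} {G : SimpleGraph V} {S Q : Set V} (h : Hyp m G S Q)
    (A : Finset V) (ε : ℝ) (hε : 0 < ε) :
    ∃ E : Finset (W G), (1 : W G) ∉ E ∧ ∀ H : Subgroup (W G), H.FiniteIndex →
      (∀ g ∈ E, ∀ x : W G, x * g * x⁻¹ ∉ H) → ∀ i : ℕ, 2 * m + 2 < 2 * i →
        (finrank ℝ (HInvOn G A H i) : ℝ) ≤ ((pnum G Q A i : ℝ) / 2 ^ i + ε) * H.index := by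
  classical
  have h1 : ∀ i : ℕ, ∃ Ei : Finset (W G), (1 : W G) ∉ Ei ∧ (2 * m + 2 < 2 * i →
      ∀ H : Subgroup (W G), H.FiniteIndex → (∀ g ∈ Ei, ∀ x : W G, x * g * x⁻¹ ∉ H) →
        (finrank ℝ (HInvOn G A H i) : ℝ) ≤ ((pnum G Q A i : ℝ) / 2 ^ i + ε) * H.index) := by
    intro i
    by_cases hi : 2 * m + 2 < 2 * i
    · obtain ⟨Ei, h2, h3⟩ := pay_one h A (i - 1) (by omega) ε hε
      have h4 : i - 1 + 1 = i := by omega
      rw [h4] at h3
      exact ⟨Ei, h2, fun _ => h3⟩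
    · exact ⟨∅, Finset.notMem_empty _, fun h => absurd h hi⟩
  choose Ef hEf1 hEf2 using h1
  refine ⟨(Finset.range (A.card + 1)).biUnion Ef, ?_, ?_⟩
  · rw [Finset.mem_biUnion]
    rintro ⟨i, _, h⟩
    exact hEf1 i h
  intro H hfin hE i hi
  have hidx : (0 : ℝ) ≤ H.index := Nat.cast_nonneg _
  by_cases hiK : i < A.card + 1
  · exact hEf2 i hi H hfin fun g hg x => hE g (Finset.mem_biUnion.2 ⟨i, Finset.mem_range.2 hiK, hg⟩) x
  · rw [HInvOn_big G A H i (by omega), finrank_bot, Nat.cast_zero]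
    positivity

/-- the hypotheses from the class `AR` -/
theorem hyp_AR {V : Type} [Finite V] [LinearOrder V] {m : ℕ} {G : SimpleGraph V} {S Q : Set V}
    (hS : ∀ a ∈ S, ∀ b, b ≤ a → b ∈ S) (h1 : AR (2 * m + 2) (G.induce S))
    (h2 : ∀ v, v ∉ S → v ∉ Q → AR (2 * m + 1) (G.induce {u | u < v ∧ G.Adj v u})) : Hyp m G S Q := by
  refine ⟨hS, fun D _ hD i hi => ?_, fun v hv hvQ D _ hD i hi => ?_⟩
  · have h3 := (Q_of_AR h1).2 {x | x.1 ∈ D} i (by omega)
    rw [lv_sub] at h3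
    refine lv_set ?_ h3
    ext x
    exact ⟨fun hx => ⟨⟨x, hD hx⟩, hx, rfl⟩, fun ⟨y, hy, e⟩ => e ▸ hy⟩
  · have h3 := (Q_of_AR (h2 v hv hvQ)).2 {x | x.1 ∈ D} i (by omega)
    rw [lv_sub] at h3
    refine lv_set ?_ h3
    ext x
    exact ⟨fun hx => ⟨⟨x, hD hx⟩, hx, rfl⟩, fun ⟨y, hy, e⟩ => e ▸ hy⟩

/-- the hypotheses from the class `ARI` -/
theorem hyp_ARI {V : Type} [LinearOrder V] {m : ℕ} {G : SimpleGraph V} {S Q : Set V}
    (hS : ∀ a ∈ S, ∀ b, b ≤ a → b ∈ S) (h1 : ARI (2 * m + 2) (G.induce S))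
    (h2 : ∀ v, v ∉ S → v ∉ Q → ARI (2 * m + 1) (G.induce {u | u < v ∧ G.Adj v u})) : Hyp m G S Q := by
  have key : ∀ (n : ℕ) (C D : Set V), ARI n (G.induce C) → D.Finite → D ⊆ C → ∀ i, n < 2 * i →
      LV (G.induce D) i := by
    intro n C D hC hD hDC i hi
    have h3 := (QI_of_ARI hC {x | x.1 ∈ D} (Set.Finite.preimage Subtype.val_injective.injOn hD)).2 Set.univ i hi
    have h4 := (lv_univ _ i).1 h3
    rw [lv_sub] at h4
    refine lv_set ?_ h4
    ext x
    exact ⟨fun hx => ⟨⟨x, hDC hx⟩, hx, rfl⟩, fun ⟨y, hy, e⟩ => e ▸ hy⟩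
  exact ⟨hS, fun D hD hDS i hi => key _ S D h1 hD hDS i (by omega),
    fun v hv hvQ D hD hDv i hi => key _ _ D (h2 v hv hvQ) hD hDv i (by omega)⟩

/-- the Charney-Davis inequality with a defect -/
theorem cd_pay {m : ℕ} {V : Type} [Fintype V] [LinearOrder V] {G : SimpleGraph V} (hS : HSph (2 * m + 2) G)
    {S Q : Set V} (h : Hyp m G S Q) :
    - ∑ k ∈ (Finset.range (m + 1)).filter Even, 2 * ((pnum G Q Set.univ (m + 2 + k) : ℝ) / 2 ^ (m + 2 + k)) ≤
      (-1 : ℝ) ^ (m + 1) * (chiW G : ℝ) := by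
  classical
  refine le_of_forall_pos_le_add fun ε hε => ?_
  set δ : ℝ := ε / (2 * (m + 1)) with hδ
  have hδ0 : 0 < δ := by positivity
  have h1 : ∀ k : ℕ, ∃ Ek : Finset (W G), (1 : W G) ∉ Ek ∧ ∀ (X : Type) [Fintype X] (a : V → X → X)
      (ev : X → W G → X), Okk G Ek a ev → (beta G (pull ℝ a) Set.univ ∅ (m + 2 + k) : ℝ) ≤
          ((pnum G Q Set.univ (m + 2 + k) : ℝ) / 2 ^ (m + 2 + k) + δ) * Fintype.card X := by
    intro k
    obtain ⟨E, h2, h3⟩ := pay G S Q (m + 1 + k) h.low (fun D hD => h.base D (Set.toFinite _) hD _ (by omega))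
      (fun v hv hvQ D hD => h.link v hv hvQ D (Set.toFinite _) hD _ (by omega)) _ Set.univ rfl
      (fun _ _ _ _ => trivial) δ hδ0
    have e : m + 1 + k + 1 = m + 2 + k := by ring
    rw [e] at h3
    exact ⟨E, h2, h3⟩
  choose Ef hEf1 hEf2 using h1
  have : Fact (Nat.Prime 3) := ⟨Nat.prime_three⟩
  obtain ⟨Y, fY, nY, P, ev, e1, e2, e3, e4⟩ := nilp 3 V G ((Finset.range (m + 1)).biUnion Ef) (by norm_num) (by
    rw [Finset.mem_biUnion]
    rintro ⟨i, _, h⟩
    exact hEf1 i h)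
  have hY : (0 : ℝ) < Fintype.card Y := by exact_mod_cast Fintype.card_pos
  have h5 := euler_sgn hS P.a P.sgn P.inv P.comm P.sgn_self P.sgn_other
  have h6 : ∀ k ∈ Finset.range (m + 1), (beta G (pull ℝ P.a) Set.univ ∅ (m + 2 + k) : ℝ) ≤
      ((pnum G Q Set.univ (m + 2 + k) : ℝ) / 2 ^ (m + 2 + k) + δ) * Fintype.card Y := by
    intro k hk
    exact hEf2 k Y P.a ev ⟨P.inv, P.comm, e1, e2, e3, fun g hg => e4 g (Finset.mem_biUnion.2 ⟨k, hk, hg⟩)⟩
  have h7 : - ∑ k ∈ (Finset.range (m + 1)).filter Even, (beta G (pull ℝ P.a) Set.univ ∅ (m + 2 + k) : ℝ) ≤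
      ∑ k ∈ Finset.range (m + 1), (-1 : ℝ) ^ (k + 1) * beta G (pull ℝ P.a) Set.univ ∅ (m + 2 + k) := by
    rw [← Finset.sum_neg_distrib, Finset.sum_filter]
    refine Finset.sum_le_sum fun k _ => ?_
    have h8 : (0 : ℝ) ≤ beta G (pull ℝ P.a) Set.univ ∅ (m + 2 + k) := Nat.cast_nonneg _
    by_cases hk : Even k
    · rw [if_pos hk, pow_succ, hk.neg_one_pow]
      linarith
    · rw [if_neg hk, pow_succ, (Nat.not_even_iff_odd.1 hk).neg_one_pow]
      linarith
  have h8 : ∑ k ∈ (Finset.range (m + 1)).filter Even, (beta G (pull ℝ P.a) Set.univ ∅ (m + 2 + k) : ℝ) ≤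
      (∑ k ∈ (Finset.range (m + 1)).filter Even, (pnum G Q Set.univ (m + 2 + k) : ℝ) / 2 ^ (m + 2 + k) +
        (m + 1) * δ) * Fintype.card Y := by
    calc ∑ k ∈ (Finset.range (m + 1)).filter Even, (beta G (pull ℝ P.a) Set.univ ∅ (m + 2 + k) : ℝ)
        ≤ ∑ k ∈ (Finset.range (m + 1)).filter Even,
          ((pnum G Q Set.univ (m + 2 + k) : ℝ) / 2 ^ (m + 2 + k) + δ) * Fintype.card Y :=
          Finset.sum_le_sum fun k hk => h6 k (Finset.mem_filter.1 hk).1
      _ = (∑ k ∈ (Finset.range (m + 1)).filter Even, (pnum G Q Set.univ (m + 2 + k) : ℝ) / 2 ^ (m + 2 + k) +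
          ((Finset.range (m + 1)).filter Even).card * δ) * Fintype.card Y := by
          rw [← Finset.sum_mul, Finset.sum_add_distrib, Finset.sum_const, nsmul_eq_mul]
      _ ≤ _ := by
          refine mul_le_mul_of_nonneg_right ?_ hY.le
          refine add_le_add le_rfl (mul_le_mul_of_nonneg_right ?_ hδ0.le)
          have h9 := Finset.card_filter_le (Finset.range (m + 1)) Even
          rw [Finset.card_range] at h9
          exact_mod_cast h9
  have h9 : (0 : ℝ) ≤ beta G (pull ℝ P.a) Set.univ ∅ (m + 1) := Nat.cast_nonneg _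
  have h10 : 2 * ((m + 1) * δ) = ε := by
    rw [hδ]
    field_simp
  have h11 : - ((∑ k ∈ (Finset.range (m + 1)).filter Even, 2 * ((pnum G Q Set.univ (m + 2 + k) : ℝ) /
      2 ^ (m + 2 + k)) + ε)) * Fintype.card Y ≤ ((-1 : ℝ) ^ (m + 1) * (chiW G : ℝ)) * Fintype.card Y := by
    have h12 : ((-1 : ℝ) ^ (m + 1) * (chiW G : ℝ)) * Fintype.card Y =
        (-1 : ℝ) ^ (m + 1) * (Fintype.card Y * (chiW G : ℝ)) := by ring
    rw [h12, h5, ← Finset.mul_sum]
    have h13 : 2 * ((m + 1) * δ) * Fintype.card Y = ε * Fintype.card Y := by rw [h10]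
    nlinarith
  have h12 := le_of_mul_le_mul_right h11 hY
  linarith

theorem HInvOn_univ {V : Type} [Fintype V] [LinearOrder V] (G : SimpleGraph V) (H : Subgroup (W G)) (i : ℕ) :
    HInvOn G Finset.univ H i = HInv G H i := by
  ext c
  constructor
  · rintro ⟨h1, h2, h3, h4, h5⟩
    refine ⟨h1, fun w T hT => h2 w T fun h => hT ⟨h.1, h.2.2⟩, h3, fun w T => ?_,
      fun w T hT => h5 w T hT (Finset.subset_univ _)⟩
    rw [Finset.compl_eq_univ_sdiff]
    exact h4 w T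
  · rintro ⟨h1, h2, h3, h4, h5⟩
    refine ⟨h1, fun w T hT => h2 w T fun h => hT ⟨h.1, Finset.subset_univ _, h.2⟩, h3, fun w T => ?_,
      fun w T hT _ => h5 w T hT⟩
    rw [← Finset.compl_eq_univ_sdiff]
    exact h4 w T

/-- homology spheres: the degrees above and below the middle, for the subgroups of finite index of the commutator
subgroup -/
theorem pay_dual {m n : ℕ} {V : Type} [Fintype V] [LinearOrder V] {G : SimpleGraph V} (hS : HSph n G)
    {S Q : Set V} (h : Hyp m G S Q) (ε : ℝ) (hε : 0 < ε) :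
    ∃ E : Finset (W G), (1 : W G) ∉ E ∧ ∀ H : Subgroup (W G), H ≤ commutator (W G) → H.FiniteIndex →
      (∀ g ∈ E, ∀ x : W G, x * g * x⁻¹ ∉ H) →
        (∀ i j : ℕ, i + j = n → m + 1 < i →
          (finrank ℝ (HInv G H i) : ℝ) ≤ ((pnum G Q Set.univ i : ℝ) / 2 ^ i + ε) * H.index ∧
          finrank ℝ (HInv G H j) = finrank ℝ (HInv G H i)) := by
  classical
  obtain ⟨E, h1, h2⟩ := pay_above h Finset.univ ε hε
  refine ⟨E, h1, fun H hH hfin hE => ?_⟩
  have : Finite (Quotient (QuotientGroup.rightRel H)) :=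
    Finite.of_equiv _ (QuotientGroup.quotientRightRelEquivQuotientLeftRel H).symm
  let _ : Fintype (Quotient (QuotientGroup.rightRel H)) := Fintype.ofFinite _
  intro i j hij hi
  constructor
  · have h4 := h2 H hfin hE i (by omega)
    rw [HInvOn_univ, Finset.coe_univ] at h4
    exact h4
  · rw [finrank_HInv, finrank_HInv]
    exact duality_sgn hS (aa_inv G H) (fun u v h x => aa_comm G H u v h x) (sn_self G H hH)
      (fun u v huv x => sn_other G H hH u v huv x) (by omega)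

/-- homology spheres of odd dimension: all degrees -/
theorem pay_sphere {m n : ℕ} {V : Type} [Fintype V] [LinearOrder V] {G : SimpleGraph V} (hS : HSph n G)
    {S Q : Set V} (h : Hyp m G S Q) (ε : ℝ) (hε : 0 < ε) :
    ∃ E : Finset (W G), (1 : W G) ∉ E ∧ ∀ H : Subgroup (W G), H ≤ commutator (W G) → H.FiniteIndex →
      (∀ g ∈ E, ∀ x : W G, x * g * x⁻¹ ∉ H) →
        (∀ i j : ℕ, i + j = n → m + 1 < i →
          (finrank ℝ (HInv G H i) : ℝ) ≤ ((pnum G Q Set.univ i : ℝ) / 2 ^ i + ε) * H.index ∧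
          finrank ℝ (HInv G H j) = finrank ℝ (HInv G H i)) ∧
        (n = 2 * m + 2 → |(finrank ℝ (HInv G H (m + 1)) : ℝ) - (-1) ^ (m + 1) * (chiW G : ℝ) * H.index| ≤
          (∑ k ∈ Finset.range (m + 1), 2 * ((pnum G Q Set.univ (m + 2 + k) : ℝ) / 2 ^ (m + 2 + k)) + ε) *
            H.index) := by
  classical
  set δ : ℝ := ε / (2 * (m + 1)) with hδ
  have hδ0 : 0 < δ := by positivity
  have hδε : δ ≤ ε := by
    rw [hδ, div_le_iff₀ (by positivity)]
    have : (0 : ℝ) ≤ m := Nat.cast_nonneg _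
    nlinarith
  obtain ⟨E, h1, h2⟩ := pay_dual hS h δ hδ0
  refine ⟨E, h1, fun H hH hfin hE => ?_⟩
  have hidx : (0 : ℝ) ≤ H.index := Nat.cast_nonneg _
  have : Finite (Quotient (QuotientGroup.rightRel H)) :=
    Finite.of_equiv _ (QuotientGroup.quotientRightRelEquivQuotientLeftRel H).symm
  let _ : Fintype (Quotient (QuotientGroup.rightRel H)) := Fintype.ofFinite _
  have h3 := h2 H hH hfin hE
  refine ⟨fun i j hij hi => ⟨(h3 i j hij hi).1.trans ?_, (h3 i j hij hi).2⟩, fun hn => ?_⟩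
  · refine mul_le_mul_of_nonneg_right ?_ hidx
    linarith
  · subst hn
    have h5 := euler_sgn hS (aa G H) (sn G H hH) (aa_inv G H) (fun u v h x => aa_comm G H u v h x)
      (sn_self G H hH) (fun u v huv x => sn_other G H hH u v huv x)
    rw [card_quot] at h5
    have h6 : (finrank ℝ (HInv G H (m + 1)) : ℝ) - (-1) ^ (m + 1) * (chiW G : ℝ) * H.index =
        - (2 * ∑ k ∈ Finset.range (m + 1), (-1 : ℝ) ^ (k + 1) * (finrank ℝ (HInv G H (m + 2 + k)) : ℝ)) := by
      simp only [finrank_HInv]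
      linarith
    rw [h6, abs_neg, abs_mul, abs_two]
    calc 2 * |∑ k ∈ Finset.range (m + 1), (-1 : ℝ) ^ (k + 1) * (finrank ℝ (HInv G H (m + 2 + k)) : ℝ)|
        ≤ 2 * ∑ k ∈ Finset.range (m + 1), |(-1 : ℝ) ^ (k + 1) * (finrank ℝ (HInv G H (m + 2 + k)) : ℝ)| :=
          mul_le_mul_of_nonneg_left (Finset.abs_sum_le_sum_abs _ _) (by norm_num)
      _ = 2 * ∑ k ∈ Finset.range (m + 1), (finrank ℝ (HInv G H (m + 2 + k)) : ℝ) := by
          congr 1
          refine Finset.sum_congr rfl fun k _ => ?_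
          rw [abs_mul, abs_pow, abs_neg, abs_one, one_pow, one_mul, abs_of_nonneg (Nat.cast_nonneg _)]
      _ ≤ 2 * ∑ k ∈ Finset.range (m + 1), ((pnum G Q Set.univ (m + 2 + k) : ℝ) / 2 ^ (m + 2 + k) + δ) * H.index := by
          refine mul_le_mul_of_nonneg_left (Finset.sum_le_sum fun k hk => ?_) (by norm_num)
          rw [Finset.mem_range] at hk
          exact (h3 (m + 2 + k) (m - k) (by omega) (by omega)).1
      _ = (∑ k ∈ Finset.range (m + 1), 2 * ((pnum G Q Set.univ (m + 2 + k) : ℝ) / 2 ^ (m + 2 + k)) + ε) *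
            H.index := by
          rw [← Finset.sum_mul, Finset.sum_add_distrib, Finset.sum_const, Finset.card_range, nsmul_eq_mul,
            ← Finset.mul_sum]
          have h10 : 2 * (((m + 1 : ℕ) : ℝ) * δ) = ε := by
            rw [hδ]
            push_cast
            field_simp
          rw [← mul_assoc, mul_add, h10]

end Pool.Agent.Q24.SG
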