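import Pool.Agent.Q24.SG.Link
import Pool.Agent.Q288.CW.Red

/-!
# Coxeter weights
-/

set_option autoImplicit false

namespace Pool.Agent.Q24.SG

open Pool.Agent.W907.SG Pool.Agent.W907.SM Pool.Agent.TH652.Above Pool.Agent.TH652.Dual Pool.Agent.Q288.CW
open Pool.Agent.W497.FS hiding lk

theorem lam_eq {V : Type} [Fintype V] [LinearOrder V] (G : SimpleGraph V) (D : Set V) [Fintype ↥D]
    (W : Finset V) (hW : (W : Set V) = D) : lam G W = chiW (G.induce D) := by
  classical
  rw [lam, fe, chiW]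
  have h1 : cl G W = ((Finset.univ : Finset (Finset ↥D)).filter
      (fun T : Finset ↥D => (G.induce D).IsClique (T : Set ↥D))).map
        (⟨fun T : Finset ↥D => T.map ⟨Subtype.val, Subtype.val_injective⟩, Finset.map_injective _⟩ :
          Finset ↥D ↪ Finset V) := by
    ext σ
    rw [mem_cl, Finset.mem_map]
    constructor
    · rintro ⟨h2, h3⟩
      refine ⟨σ.subtype (· ∈ D), ?_, ?_⟩
      · rw [Finset.mem_filter]
        refine ⟨Finset.mem_univ _, ?_⟩
        intro a ha b hb hab
        rw [Finset.mem_coe, Finset.mem_subtype] at ha hb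
        exact h3 _ ha _ hb fun e => hab (Subtype.ext e)
      · show (σ.subtype (· ∈ D)).map _ = σ
        ext x
        rw [Finset.mem_map]
        constructor
        · rintro ⟨y, hy, rfl⟩
          exact Finset.mem_subtype.1 hy
        · intro hx
          have hxD : x ∈ D := by rw [← hW]; exact h2 hx
          exact ⟨⟨x, hxD⟩, Finset.mem_subtype.2 hx, rfl⟩
    · rintro ⟨T, hT, rfl⟩
      rw [Finset.mem_filter] at hT
      constructor
      · intro x hx
        rw [Function.Embedding.coeFn_mk, Finset.mem_map] at hx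
        obtain ⟨y, _, rfl⟩ := hx
        have h5 : ∀ z, z ∈ D → z ∈ W := by
          intro z hz
          rw [← hW] at hz
          exact hz
        exact h5 _ y.2
      · intro x hx y hy hxy
        rw [Function.Embedding.coeFn_mk, Finset.mem_map] at hx hy
        obtain ⟨x', hx', rfl⟩ := hx
        obtain ⟨y', hy', rfl⟩ := hy
        exact hT.2 hx' hy' fun e => hxy (by rw [e])
  rw [h1, Finset.sum_map, Finset.sum_filter]
  refine Finset.sum_congr rfl fun T _ => ?_
  by_cases hT : (G.induce D).IsClique (T : Set ↥D)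
  · rw [if_pos hT, if_pos hT, Function.Embedding.coeFn_mk, Finset.card_map]
  · rw [if_neg hT, if_neg hT]

/-- the Charney-Davis inequality for the link of a face -/
theorem cd_link {l : ℕ} {n : ℕ} {V : Type} [Fintype V] [LinearOrder V] {G : SimpleGraph V} (hS : HSph n G)
    (T : Finset V) (hT : G.IsClique (T : Set V)) (hd : 2 * l + T.card = n)
    (hA : AR (2 * l) (G.induce {u | ∀ t ∈ T, G.Adj t u})) (W : Finset V) (hW : ∀ x, x ∈ W ↔ ∀ t ∈ T, G.Adj t x) :
    0 ≤ (-1) ^ l * lam G W := by
  classical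
  have he : ({u | ∀ t ∈ T, G.Adj t u} : Set V) = lk G T := by
    ext x
    exact ⟨fun h t ht => (h t ht).symm, fun h t ht => (h t ht).symm⟩
  rw [he] at hA
  have : Fintype ↥(lk G T) := Fintype.ofFinite _
  have h1 := HSph_link hS T hT hd
  rw [lam_eq G (lk G T) W (by
    ext x
    rw [Finset.mem_coe, hW]
    exact ⟨fun h t ht => (h t ht).symm, fun h t ht => (h t ht).symm⟩)]
  exact chi_sign _ fun i hi => singer_AR h1 hA i (by omega)

/-- weighted inequality -/
theorem weighted {m : ℕ} {V : Type} [Fintype V] [LinearOrder V] {G : SimpleGraph V} (hS : HSph (2 * m) G)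
    (w : Finset V → ℕ) (N : Finset V → ℚ) (hN : Orders (cl G Finset.univ) w N)
    (hA : ∀ T : Finset V, G.IsClique (T : Set V) → Heavy w T → ∀ l, 2 * l + T.card = 2 * m →
      AR (2 * l) (G.induce {u | ∀ t ∈ T, G.Adj t u})) :
    0 ≤ (-1) ^ m * ∑ σ ∈ cl G Finset.univ, (-1 : ℚ) ^ σ.card / 2 ^ σ.card ∧
    (-1) ^ m * ∑ σ ∈ cl G Finset.univ, (-1 : ℚ) ^ σ.card / 2 ^ σ.card ≤
      (-1) ^ m * ∑ σ ∈ cl G Finset.univ, (-1) ^ σ.card / N σ := by
  classical
  have hclq : ∀ T : Finset V, T ∈ cl G Finset.univ ↔ G.IsClique (T : Set V) := by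
    intro T
    rw [mem_cl]
    constructor
    · intro h a ha b hb hab
      exact h.2 a ha b hb hab
    · intro h
      exact ⟨Finset.subset_univ T, fun a ha b hb hab => h ha hb hab⟩
  have hlam : lam G Finset.univ = ∑ σ ∈ cl G Finset.univ, (-1 : ℚ) ^ σ.card / 2 ^ σ.card := by
    rw [lam, fe]
    refine Finset.sum_congr rfl (fun σ _ => ?_)
    rw [← div_pow]
  have hsub : ∀ T ∈ cl G Finset.univ, ∀ U ⊆ T, U ∈ cl G Finset.univ := fun T hT U hU => cl_of_subset hT hU
  rw [← hlam]
  have hlight : ∀ v ∈ (∅ : Finset V), ∃ u ∈ (∅ : Finset V), u ≠ v ∧ w {v, u} ≠ 2 := by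
    intro v hv; exact absurd hv (Finset.notMem_empty v)
  refine ⟨?_, ?_⟩
  · refine cd_link (l := m) hS ∅ (by simp) (by simp) (hA ∅ (by simp) hlight m (by simp)) Finset.univ ?_
    intro x; simp
  · refine weighted_ge (hN.good hsub) hN.empty
      (fun T hT => Pool.Agent.TH652.Dual.no_big hS ((hclq T).1 hT)) fun T hT _ hb j l hj hl => ?_
    have hh : Heavy w T := by
      by_contra h
      exact hb (hN.bN_light hsub hT h)
    have hTc := (hclq T).1 hT
    refine cd_link (l := l) hS T hTc (by omega) (hA T hTc hh l (by omega)) _ ?_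
    intro x
    rw [mem_lkF]
    exact ⟨fun h => h.2, fun h => ⟨Finset.mem_univ x, h⟩⟩

end Pool.Agent.Q24.SG
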