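import Pool.Agent.Q24.SG.Num5
import Pool.Agent.Q24.SG.Weight

/-!
# Coxeter weights: the inequality with a defect
-/

set_option autoImplicit false

namespace Pool.Agent.Q24.SG

open Pool.Agent.W907.SG Pool.Agent.W907.SM Pool.Agent.TH652.Above Pool.Agent.TH652.Dual Pool.Agent.Q288.CW
open Pool.Agent.W497.FS hiding lk

theorem weighted_defect {m : ℕ} {V : Type} [Fintype V] [LinearOrder V] {G : SimpleGraph V}
    (hS : HSph (2 * m + 2) G) {S Q : Set V} (hyp : Hyp m G S Q)
    (w : Finset V → ℕ) (N : Finset V → ℚ) (hN : Orders (cl G Finset.univ) w N)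
    (hA : ∀ T : Finset V, T.Nonempty → G.IsClique (T : Set V) → Heavy w T → ∀ l, 2 * l + T.card = 2 * m + 2 →
      AR (2 * l) (G.induce {u | ∀ t ∈ T, G.Adj t u})) :
    - ∑ k ∈ (Finset.range (m + 1)).filter Even, (2 * ((pnum G Q Set.univ (m + 2 + k) : ℚ) / 2 ^ (m + 2 + k))) ≤
      (-1) ^ (m + 1) * ∑ σ ∈ cl G Finset.univ, (-1 : ℚ) ^ σ.card / 2 ^ σ.card ∧
    (-1) ^ (m + 1) * ∑ σ ∈ cl G Finset.univ, (-1 : ℚ) ^ σ.card / 2 ^ σ.card ≤
      (-1) ^ (m + 1) * ∑ σ ∈ cl G Finset.univ, (-1) ^ σ.card / N σ := by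
  classical
  have hclq : ∀ T : Finset V, T ∈ cl G Finset.univ ↔ G.IsClique (T : Set V) := by
    intro T
    rw [mem_cl]
    constructor
    · intro h a ha b hb hab
      exact h.2 a ha b hb hab
    · intro h
      exact ⟨Finset.subset_univ T, fun a ha b hb hab => h ha hb hab⟩
  have hlam : lam G Finset.univ = ∑ σ ∈ cl G Finset.univ, (-1 : ℚ) ^ σ.card / 2 ^ σ.card := by
    rw [lam, fe]
    refine Finset.sum_congr rfl (fun σ _ => ?_)
    rw [← div_pow]
  have hsub : ∀ T ∈ cl G Finset.univ, ∀ U ⊆ T, U ∈ cl G Finset.univ := fun T hT U hU => cl_of_subset hT hU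
  rw [← hlam]
  refine ⟨?_, ?_⟩
  · have h1 := cd_pay hS hyp
    have h2 : (∑ T : Finset V, if G.IsClique (T : Set V) then (-1 / 2 : ℚ) ^ T.card else 0) = lam G Finset.univ := by
      rw [lam, fe, ← Finset.sum_filter]
      refine Finset.sum_congr ?_ fun _ _ => rfl
      ext T
      rw [Finset.mem_filter, hclq]
      exact ⟨fun h => h.2, fun h => ⟨Finset.mem_univ _, h⟩⟩
    have h3 : chiW G = lam G Finset.univ := by
      rw [← h2, chiW]
      refine Finset.sum_congr rfl fun T _ => ?_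
      by_cases hT : G.IsClique (T : Set V)
      · rw [if_pos hT, if_pos hT]
      · rw [if_neg hT, if_neg hT]
    rw [h3] at h1
    refine (Rat.cast_le (K := ℝ)).1 ?_
    push_cast
    exact h1
  · have e : 2 * (m + 1) = 2 * m + 2 := by ring
    refine weighted_ge (hN.good hsub) hN.empty
      (fun T hT => by rw [e]; exact Pool.Agent.TH652.Dual.no_big hS ((hclq T).1 hT)) fun T hT hTn hb j l hj hl => ?_
    have hh : Heavy w T := by
      by_contra h
      exact hb (hN.bN_light hsub hT h)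
    have hTc := (hclq T).1 hT
    refine cd_link (l := l) hS T hTc (by omega) (hA T hTn hTc hh l (by omega)) _ ?_
    intro x
    rw [mem_lkF]
    exact ⟨fun h => h.2, fun h => ⟨Finset.mem_univ x, h⟩⟩

end Pool.Agent.Q24.SG
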